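import Pool.Agent.W174.Stu.Dig
import Pool.Agent.H165R3.Birk

/-!
Existence of a continued-fraction normal number, from the ergodicity of the Gauss map.
-/

set_option autoImplicit false

open Filter Set MeasureTheory
open scoped Topology ENNReal

namespace Pool.Agent.R357.CF

open Pool.Agent.W811.Stu Pool.Agent.W174.Stu

/-- the Gauss probability measure -/
noncomputable def gam : Measure ℝ :=
  (ENNReal.ofReal (Real.log 2))⁻¹ •
    (volume.restrict (Ico (0:ℝ) 1)).withDensity (fun x => ENNReal.ofReal (1 / (1 + x)))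

lemma gam_apply {A : Set ℝ} (hA : MeasurableSet A) :
    gam A = (ENNReal.ofReal (Real.log 2))⁻¹ * gm A := by
  unfold gam gm
  rw [Measure.smul_apply, withDensity_apply _ hA, Measure.restrict_restrict hA]
  rfl

lemma gm_Iio {t : ℝ} (h0 : 0 ≤ t) (h1 : t ≤ 1) : gm (Iio t) = ENNReal.ofReal (Real.log (1 + t)) := by
  unfold gm
  have hs : Iio t ∩ Ico (0:ℝ) 1 = Ico 0 t := by
    ext x
    simp only [mem_inter_iff, mem_Iio, mem_Ico]
    constructor
    · rintro ⟨a, b, c⟩; exact ⟨b, a⟩
    · rintro ⟨a, b⟩; exact ⟨b, a, by linarith⟩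
  rw [hs, restrict_Ico_eq_restrict_Ioc]
  have hint : IntervalIntegrable (fun x : ℝ => 1 / (1 + x)) volume 0 t := by
    apply ContinuousOn.intervalIntegrable
    apply ContinuousOn.div continuousOn_const (by fun_prop)
    intro x hx
    rw [uIcc_of_le h0] at hx
    have := hx.1
    positivity
  rw [← ofReal_integral_eq_lintegral_ofReal]
  · congr 1
    rw [← intervalIntegral.integral_of_le h0]
    have : ∫ x in (0:ℝ)..t, 1 / (1 + x) = ∫ x in (0:ℝ)..t, (fun y => 1 / y) (1 + x) := rfl
    rw [this, intervalIntegral.integral_comp_add_left (fun y : ℝ => 1 / y) 1]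
    rw [integral_one_div_of_pos (by norm_num) (by linarith)]
    simp
  · exact (intervalIntegrable_iff_integrableOn_Ioc_of_le h0).1 hint
  · refine (ae_restrict_mem measurableSet_Ioc).mono fun x hx => ?_
    have := hx.1
    show 0 ≤ 1 / (1 + x)
    positivity

lemma log2_ne : ENNReal.ofReal (Real.log 2) ≠ 0 := by
  rw [Ne, ENNReal.ofReal_eq_zero, not_le]
  exact Real.log_pos (by norm_num)

lemma gam_Iio {t : ℝ} (h0 : 0 ≤ t) (h1 : t ≤ 1) :
    gam (Iio t) = ENNReal.ofReal (Real.log (1 + t) / Real.log 2) := by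
  rw [gam_apply measurableSet_Iio, gm_Iio h0 h1, ENNReal.ofReal_div_of_pos (Real.log_pos (by norm_num)),
    ENNReal.div_eq_inv_mul]

lemma gam_univ : gam univ = 1 := by
  have h1 : gam univ = gam (Iio 1) := by
    rw [gam_apply MeasurableSet.univ, gam_apply measurableSet_Iio]
    unfold gm
    congr 3
    ext x
    simp only [mem_inter_iff, mem_univ, mem_Iio, mem_Ico, true_and]
    constructor
    · rintro ⟨a, b⟩; exact ⟨b, a, b⟩
    · rintro ⟨a, b, c⟩; exact ⟨b, c⟩
  rw [h1, gam_Iio (by norm_num) le_rfl]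
  rw [show (1:ℝ) + 1 = 2 by norm_num, div_self (Real.log_pos (by norm_num)).ne']
  simp

instance : IsProbabilityMeasure gam := ⟨gam_univ⟩

lemma gam_gauss_le (A : Set ℝ) (hA : MeasurableSet A) : gam (gauss ⁻¹' A) ≤ gam A := by
  rw [gam_apply (measurable_gauss hA), gam_apply hA]
  gcongr
  exact gm_gauss A hA

lemma gam_gauss (A : Set ℝ) (hA : MeasurableSet A) : gam (gauss ⁻¹' A) = gam A := by
  apply le_antisymm (gam_gauss_le A hA)
  have h1 := gam_gauss_le Aᶜ hA.compl
  rw [preimage_compl, prob_compl_eq_one_sub (measurable_gauss hA), prob_compl_eq_one_sub hA] at h1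
  have h2 : gam A ≤ 1 := prob_le_one
  have h3 : gam (gauss ⁻¹' A) ≤ 1 := prob_le_one
  exact (ENNReal.sub_le_sub_iff_left h2 ENNReal.one_ne_top).1 h1

lemma mp : MeasurePreserving gauss gam gam := by
  refine ⟨measurable_gauss, ?_⟩
  ext A hA
  rw [Measure.map_apply measurable_gauss hA, gam_gauss A hA]

lemma gam_ac : gam ≪ volume.restrict (Ioo (0:ℝ) 1) := by
  unfold gam
  refine (Measure.smul_absolutelyContinuous).trans ?_
  refine (withDensity_absolutelyContinuous _ _).trans ?_
  rw [Measure.restrict_congr_set Ioo_ae_eq_Ico.symm]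

lemma gam_pos {A : Set ℝ} (hA : MeasurableSet A) (h : gam A ≠ 0) : volume (A ∩ Ioo 0 1) ≠ 0 := by
  intro h0
  apply h
  apply gam_ac
  rw [Measure.restrict_apply hA, h0]

lemma erg : Ergodic gauss gam := by
  refine ⟨mp, ⟨?_⟩⟩
  intro s hs hinv
  rw [eventuallyConst_set']
  by_cases h : gam s = 0
  · left
    exact ae_eq_empty.2 h
  · right
    have h1 := tErg s hs (gam_pos hs h)
    have h2 := gam_ac.ae_le h1
    rw [ae_eq_univ]
    refine measure_mono_null ?_ h2
    intro x hx hc
    apply hx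
    obtain ⟨n, hn⟩ := hc
    have h3 : ∀ n : ℕ, ∀ y, gauss^[n] y ∈ s → y ∈ s := by
      intro n
      induction n with
      | zero => intro y hy; exact hy
      | succ n ih =>
        intro y hy
        rw [Function.iterate_succ_apply] at hy
        have := ih _ hy
        rw [← hinv]
        exact this
    exact h3 n x hn

/-- almost every point is normal -/
lemma ae_freq (t : ℝ) (h0 : 0 ≤ t) (h1 : t ≤ 1) : ∀ᵐ x ∂gam, Tendsto
    (fun N : ℕ => (((Finset.range N).filter (fun n => gauss^[n] x < t)).card : ℝ) / N) atTop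
    (𝓝 (Real.log (1 + t) / Real.log 2)) := by
  have hb := Pool.Agent.H165R3.birkhoff erg (indicator (Iio t) (fun _ => (1:ℝ)))
    (measurable_const.indicator measurableSet_Iio) ⟨1, fun x => by
      by_cases hx : x ∈ Iio t
      · simp [indicator_of_mem hx]
      · simp [indicator_of_notMem hx]⟩
  filter_upwards [hb] with x hx
  have e1 : ∫ x, indicator (Iio t) (fun _ => (1:ℝ)) x ∂gam = Real.log (1 + t) / Real.log 2 := by
    rw [integral_indicator measurableSet_Iio, setIntegral_const, smul_eq_mul, mul_one,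
      Measure.real, gam_Iio h0 h1, ENNReal.toReal_ofReal]
    apply div_nonneg (Real.log_nonneg (by linarith)) (Real.log_nonneg (by norm_num))
  rw [e1] at hx
  refine hx.congr fun N => ?_
  rw [div_eq_inv_mul]
  congr 1
  rw [Finset.card_filter]
  push_cast
  refine Finset.sum_congr rfl fun n _ => ?_
  by_cases h : gauss^[n] x < t
  · rw [indicator_of_mem (by exact h), if_pos h]
  · rw [indicator_of_notMem (by exact h), if_neg h]

/-- there is a number which is normal with respect to the continued fraction expansion -/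
theorem exists_normal : ∃ α : ℝ, Irrational α ∧ α ∈ Ioo (0:ℝ) 1 ∧ ∀ t : ℝ, 0 ≤ t → t ≤ 1 → Tendsto
    (fun N : ℕ => (((Finset.range N).filter (fun n => gauss^[n] α < t)).card : ℝ) / N) atTop
    (𝓝 (Real.log (1 + t) / Real.log 2)) := by
  have h1 : ∀ᵐ x ∂gam, ∀ r : ℚ, 0 ≤ (r : ℝ) → (r : ℝ) ≤ 1 → Tendsto
      (fun N : ℕ => (((Finset.range N).filter (fun n => gauss^[n] x < r)).card : ℝ) / N) atTop
      (𝓝 (Real.log (1 + r) / Real.log 2)) := by
    rw [ae_all_iff]
    intro r
    by_cases hr : 0 ≤ (r : ℝ) ∧ (r : ℝ) ≤ 1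
    · filter_upwards [ae_freq r hr.1 hr.2] with x hx _ _ using hx
    · filter_upwards with x h0 h1
      exact absurd ⟨h0, h1⟩ hr
  have h2 : ∀ᵐ x ∂gam, Irrational x ∧ x ∈ Ioo (0:ℝ) 1 := by
    apply gam_ac.ae_le
    have hirr : ∀ᵐ x : ℝ, Irrational x := (countable_range ((↑) : ℚ → ℝ)).ae_notMem volume
    filter_upwards [ae_restrict_of_ae hirr, ae_restrict_mem measurableSet_Ioo] with x a b
    exact ⟨a, b⟩
  obtain ⟨α, hα1, hα2, hα3⟩ := (h1.and h2).exists
  refine ⟨α, hα2, hα3, ?_⟩
  intro t h0 h1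
  have hcont : ∀ t : ℝ, 0 ≤ t → ContinuousAt (fun t : ℝ => Real.log (1 + t) / Real.log 2) t := by
    intro t ht
    apply ContinuousAt.div_const
    apply ContinuousAt.log (by fun_prop)
    positivity
  rw [Metric.tendsto_atTop]
  intro ε hε
  obtain ⟨δ, hδ, hδ2⟩ := Metric.continuousAt_iff.1 (hcont t h0) (ε / 2) (by positivity)
  -- upper
  have up : ∃ N0 : ℕ, ∀ N ≥ N0,
      (((Finset.range N).filter (fun n => gauss^[n] α < t)).card : ℝ) / N <
        Real.log (1 + t) / Real.log 2 + ε := by
    rcases h1.eq_or_lt with rfl | h1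
    · have h3 := hα1 1 (by norm_num) (by norm_num)
      obtain ⟨N0, hN0⟩ := Metric.tendsto_atTop.1 h3 ε hε
      refine ⟨N0, fun N hN => ?_⟩
      have h4 := hN0 N hN
      rw [Real.dist_eq, abs_lt] at h4
      have h5 := h4.2
      push_cast at h5
      linarith
    · obtain ⟨r, hr1, hr2⟩ := exists_rat_btwn (show t < min 1 (t + δ) by
        rw [lt_min_iff]; exact ⟨h1, by linarith⟩)
      rw [lt_min_iff] at hr2
      have h3 := hα1 r (by linarith) hr2.1.le
      obtain ⟨N0, hN0⟩ := Metric.tendsto_atTop.1 h3 (ε / 2) (by positivity)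
      refine ⟨N0, fun N hN => ?_⟩
      have h4 := hN0 N hN
      rw [Real.dist_eq, abs_lt] at h4
      have h5 := @hδ2 (r : ℝ) (by rw [Real.dist_eq, abs_lt]; constructor <;> linarith)
      rw [Real.dist_eq, abs_lt] at h5
      have h6 : (((Finset.range N).filter (fun n => gauss^[n] α < t)).card : ℝ) / N ≤
          (((Finset.range N).filter (fun n => gauss^[n] α < r)).card : ℝ) / N := by
        gcongr
      linarith [h4.2, h5.2]
  have low : ∃ N0 : ℕ, ∀ N ≥ N0, Real.log (1 + t) / Real.log 2 - ε <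
      (((Finset.range N).filter (fun n => gauss^[n] α < t)).card : ℝ) / N := by
    rcases h0.eq_or_lt with rfl | h0
    · refine ⟨0, fun N _ => ?_⟩
      have : (0:ℝ) ≤ (((Finset.range N).filter (fun n => gauss^[n] α < 0)).card : ℝ) / N := by
        positivity
      simp only [add_zero, Real.log_one, zero_div]
      linarith
    · obtain ⟨r, hr1, hr2⟩ := exists_rat_btwn (show max 0 (t - δ) < t by
        rw [max_lt_iff]; exact ⟨h0, by linarith⟩)
      rw [max_lt_iff] at hr1
      have h3 := hα1 r hr1.1.le (by linarith)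
      obtain ⟨N0, hN0⟩ := Metric.tendsto_atTop.1 h3 (ε / 2) (by positivity)
      refine ⟨N0, fun N hN => ?_⟩
      have h4 := hN0 N hN
      rw [Real.dist_eq, abs_lt] at h4
      have h5 := @hδ2 (r : ℝ) (by rw [Real.dist_eq, abs_lt]; constructor <;> linarith)
      rw [Real.dist_eq, abs_lt] at h5
      have h6 : (((Finset.range N).filter (fun n => gauss^[n] α < r)).card : ℝ) / N ≤
          (((Finset.range N).filter (fun n => gauss^[n] α < t)).card : ℝ) / N := by
        gcongr
      linarith [h4.1, h5.1]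
  obtain ⟨N1, hN1⟩ := up
  obtain ⟨N2, hN2⟩ := low
  refine ⟨max N1 N2, fun N hN => ?_⟩
  have a1 := hN1 N ((le_max_left _ _).trans hN)
  have a2 := hN2 N ((le_max_right _ _).trans hN)
  rw [Real.dist_eq, abs_lt]
  constructor <;> linarith

end Pool.Agent.R357.CF
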