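import Pool.Agent.R357.CF.Steer
import Pool.Agent.R357.CF.Norm

/-!
The construction of a continued-fraction normal `x` such that `√2 x + √2` is not.
-/

set_option autoImplicit false

open Filter Set
open scoped Topology

namespace Pool.Agent.R357.CF

open Pool.Agent.W811.Stu Pool.Agent.W174.Stu

/-- counting function -/
noncomputable def cnt (u : ℕ → ℝ) (t : ℝ) (N : ℕ) : ℕ := ((Finset.range N).filter (fun n => u n < t)).card

lemma freq_transfer {u v : ℕ → ℝ} {F : ℝ → ℝ} (hF : Continuous F)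
    (hv : ∀ t, Tendsto (fun N : ℕ => (cnt v t N : ℝ) / N) atTop (𝓝 (F t)))
    (hd : ∀ δ : ℝ, 0 < δ → Tendsto (fun N : ℕ =>
      (((Finset.range N).filter (fun n => δ ≤ |u n - v n|)).card : ℝ) / N) atTop (𝓝 0)) (t : ℝ) :
    Tendsto (fun N : ℕ => (cnt u t N : ℝ) / N) atTop (𝓝 (F t)) := by
  rw [Metric.tendsto_atTop]
  intro ε hε
  obtain ⟨η, hη, hη2⟩ := Metric.continuousAt_iff.1 (hF.continuousAt (x := t)) (ε / 3) (by positivity)
  set δ := η / 2 with hδ
  have hδ0 : 0 < δ := by positivity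
  have k1 := @hη2 (t + δ) (by rw [Real.dist_eq]; rw [abs_of_pos] <;> linarith)
  have k2 := @hη2 (t - δ) (by rw [Real.dist_eq]; rw [abs_of_neg] <;> linarith)
  rw [Real.dist_eq, abs_lt] at k1 k2
  obtain ⟨N1, h1⟩ := Metric.tendsto_atTop.1 (hv (t + δ)) (ε / 3) (by positivity)
  obtain ⟨N2, h2⟩ := Metric.tendsto_atTop.1 (hv (t - δ)) (ε / 3) (by positivity)
  obtain ⟨N3, h3⟩ := Metric.tendsto_atTop.1 (hd δ hδ0) (ε / 3) (by positivity)
  refine ⟨max N1 (max N2 N3), fun N hN => ?_⟩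
  have h1 := h1 N (by omega)
  have h2 := h2 N (by omega)
  have h3 := h3 N (by omega)
  rw [Real.dist_eq, abs_lt] at h1 h2 h3 ⊢
  have c1 : cnt u t N ≤ cnt v (t + δ) N + ((Finset.range N).filter (fun n => δ ≤ |u n - v n|)).card := by
    unfold cnt
    refine le_trans (Finset.card_le_card ?_) (Finset.card_union_le _ _)
    intro n hn
    simp only [Finset.mem_union, Finset.mem_filter] at hn ⊢
    by_cases h : δ ≤ |u n - v n|
    · exact Or.inr ⟨hn.1, h⟩
    · left
      refine ⟨hn.1, ?_⟩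
      rw [not_le, abs_lt] at h
      linarith [hn.2]
  have c2 : cnt v (t - δ) N ≤ cnt u t N + ((Finset.range N).filter (fun n => δ ≤ |u n - v n|)).card := by
    unfold cnt
    refine le_trans (Finset.card_le_card ?_) (Finset.card_union_le _ _)
    intro n hn
    simp only [Finset.mem_union, Finset.mem_filter] at hn ⊢
    by_cases h : δ ≤ |u n - v n|
    · exact Or.inr ⟨hn.1, h⟩
    · left
      refine ⟨hn.1, ?_⟩
      rw [not_le, abs_lt] at h
      linarith [hn.2]
  have d1 : (cnt u t N : ℝ) / N ≤ cnt v (t + δ) N / N +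
      (((Finset.range N).filter (fun n => δ ≤ |u n - v n|)).card : ℝ) / N := by
    rw [← add_div]
    gcongr
    exact_mod_cast c1
  have d2 : (cnt v (t - δ) N : ℝ) / N ≤ cnt u t N / N +
      (((Finset.range N).filter (fun n => δ ≤ |u n - v n|)).card : ℝ) / N := by
    rw [← add_div]
    gcongr
    exact_mod_cast c2
  constructor <;> linarith [h1.1, h1.2, h2.1, h2.2, h3.1, h3.2, k1.1, k1.2, k2.1, k2.2]

open scoped Classical in
/-- the exceptional set has density zero -/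
lemma sparse (L : ℕ) : Tendsto (fun N : ℕ => (((Finset.range N).filter
    (fun n => ∃ j, n ≤ 4 ^ j ∧ 4 ^ j < n + L)).card : ℝ) / N) atTop (𝓝 0) := by
  have hb : ∀ N : ℕ, ((Finset.range N).filter (fun n => ∃ j, n ≤ 4 ^ j ∧ 4 ^ j < n + L)).card ≤
      (Nat.sqrt (N + L) + 1) * L := by
    intro N
    have hsub : (Finset.range N).filter (fun n => ∃ j, n ≤ 4 ^ j ∧ 4 ^ j < n + L) ⊆
        (Finset.range (Nat.sqrt (N + L) + 1) ×ˢ Finset.range L).image (fun p => 4 ^ p.1 - p.2) := by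
      intro n hn
      simp only [Finset.mem_filter, Finset.mem_range] at hn
      obtain ⟨hn, j, h1, h2⟩ := hn
      rw [Finset.mem_image]
      refine ⟨(j, 4 ^ j - n), ?_, by simp only; omega⟩
      simp only [Finset.mem_product, Finset.mem_range]
      refine ⟨?_, by omega⟩
      apply Nat.lt_succ_of_le
      rw [Nat.le_sqrt]
      have h3 : j < 2 ^ j := Nat.lt_two_pow_self
      have h4 : 4 ^ j = 2 ^ j * 2 ^ j := by rw [← mul_pow]; norm_num
      have h5 : j * j ≤ 2 ^ j * 2 ^ j := Nat.mul_le_mul h3.le h3.le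
      omega
    refine (Finset.card_le_card hsub).trans (Finset.card_image_le.trans ?_)
    rw [Finset.card_product, Finset.card_range, Finset.card_range]
  have hb2 : ∀ N : ℕ, (((Finset.range N).filter (fun n => ∃ j, n ≤ 4 ^ j ∧ 4 ^ j < n + L)).card : ℝ) / N ≤
      ((√L + 2) * L) / √(N : ℝ) := by
    intro N
    rcases Nat.eq_zero_or_pos N with rfl | hN
    · simp
    have hN1 : (1:ℝ) ≤ N := by exact_mod_cast hN
    have hs1 : 1 ≤ √(N:ℝ) := by rw [Real.one_le_sqrt]; exact hN1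
    have h1 : ((Nat.sqrt (N + L) : ℕ) : ℝ) ≤ √(N:ℝ) + √(L:ℝ) := by
      have h2 : ((Nat.sqrt (N + L) : ℕ) : ℝ) ≤ √((N + L : ℕ) : ℝ) := Real.nat_sqrt_le_real_sqrt
      refine h2.trans ?_
      rw [Real.sqrt_le_left (by positivity)]
      push_cast
      have h3 := Real.sq_sqrt (show (0:ℝ) ≤ N by positivity)
      have h4 := Real.sq_sqrt (show (0:ℝ) ≤ L by positivity)
      nlinarith [Real.sqrt_nonneg (N:ℝ), Real.sqrt_nonneg (L:ℝ),
        mul_nonneg (Real.sqrt_nonneg (N:ℝ)) (Real.sqrt_nonneg (L:ℝ))]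
    have h2 : (((Finset.range N).filter (fun n => ∃ j, n ≤ 4 ^ j ∧ 4 ^ j < n + L)).card : ℝ) ≤
        ((√L + 2) * L) * √(N:ℝ) := by
      have h3 : (((Finset.range N).filter (fun n => ∃ j, n ≤ 4 ^ j ∧ 4 ^ j < n + L)).card : ℝ) ≤
        (Nat.sqrt (N + L) + 1) * L := by exact_mod_cast hb N
      refine h3.trans ?_
      have h5 : ((Nat.sqrt (N + L) : ℕ) : ℝ) + 1 ≤ (√L + 2) * √(N:ℝ) := by
        nlinarith [Real.sqrt_nonneg (L:ℝ)]
      have h6 : (0:ℝ) ≤ L := by positivity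
      calc ((Nat.sqrt (N + L) : ℕ) + 1 : ℝ) * L ≤ ((√L + 2) * √(N:ℝ)) * L := by gcongr
        _ = _ := by ring
    rw [div_le_div_iff₀ (by positivity) (by positivity)]
    have h3 : √(N:ℝ) * √(N:ℝ) = N := Real.mul_self_sqrt (by positivity)
    calc _ ≤ ((√L + 2) * L) * √(N:ℝ) * √(N:ℝ) := by gcongr
      _ = (√L + 2) * L * N := by rw [mul_assoc, h3]
  refine squeeze_zero (fun N => by positivity) hb2 ?_
  exact tendsto_const_nhds.div_atTop (Real.tendsto_sqrt_atTop.comp tendsto_natCast_atTop_atTop)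

/-- the steering digit after a word -/
noncomputable def K (w : List ℕ) : ℕ := by
  classical
  exact if h : Good w then (steer h w.length).choose else 1

lemma K_pos (w : List ℕ) : 1 ≤ K w := by
  unfold K
  split_ifs with h
  · obtain ⟨i, h1, _⟩ := (steer h w.length).choose_spec
    exact h1
  · exact le_rfl

lemma K_spec {w : List ℕ} (h : Good w) : ∃ i, w.length ≤ i ∧
    ∀ z ∈ Ioo (0:ℝ) 1, ∀ n, i + 1 ≤ n → n < i + 1 + i / 3 →
      1 / 2 < gauss^[n] (Int.fract (√2 * (phi w (1 / (K w + z))) + √2)) := by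
  obtain ⟨i, _, h2, h3⟩ := (steer h w.length).choose_spec
  refine ⟨i, h2, ?_⟩
  unfold K
  rw [dif_pos h]
  exact h3

/-- the modified digits: the word so far -/
noncomputable def LL (a : ℕ → ℕ) : ℕ → List ℕ
  | 0 => []
  | n + 1 => LL a n ++ [by classical exact if ∃ j, n = 4 ^ j then K (LL a n) else a n]

/-- the modified digits -/
noncomputable def ss (a : ℕ → ℕ) (n : ℕ) : ℕ := by
  classical exact if ∃ j, n = 4 ^ j then K (LL a n) else a n

lemma pre_ss (a : ℕ → ℕ) (n : ℕ) : pre (ss a) n = LL a n := by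
  induction n with
  | zero => simp [pre, LL]
  | succ n ih => rw [pre_succ, ih]; rfl

lemma ss_pos {a : ℕ → ℕ} (ha : ∀ n, 1 ≤ a n) (n : ℕ) : 1 ≤ ss a n := by
  unfold ss
  split_ifs
  · exact K_pos _
  · exact ha n

lemma ss_not {a : ℕ → ℕ} {n : ℕ} (h : ¬ ∃ j, n = 4 ^ j) : ss a n = a n := by
  unfold ss; rw [if_neg h]

lemma ss_pow (a : ℕ → ℕ) (j : ℕ) : ss a (4 ^ j) = K (pre (ss a) (4 ^ j)) := by
  rw [pre_ss]
  unfold ss
  rw [if_pos ⟨j, rfl⟩]

/-- runs -/
lemma runs {a : ℕ → ℕ} (ha : ∀ n, 1 ≤ a n) (M : ℕ) : ∃ i, M ≤ i ∧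
    ∀ n, i + 1 ≤ n → n < i + 1 + i / 3 →
      1 / 2 < gauss^[n] (Int.fract (√2 * X (ss a) + √2)) := by
  have hs := ss_pos ha
  obtain ⟨i, h1, h2⟩ := K_spec (pre_good hs (4 ^ M))
  rw [pre_length] at h1
  have h3 : M < 4 ^ M := Nat.lt_pow_self (by norm_num)
  refine ⟨i, by omega, ?_⟩
  intro n hn1 hn2
  have h4 := h2 (X (sh (ss a) (4 ^ M + 1))) (X_mem (sh_good hs _)) n hn1 hn2
  have e : X (ss a) = phi (pre (ss a) (4 ^ M)) (1 / (K (pre (ss a) (4 ^ M)) + X (sh (ss a) (4 ^ M + 1)))) := by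
    rw [← ss_pow]
    have e1 := X_pre hs (4 ^ M)
    have e2 := X_eq (sh_good hs (4 ^ M))
    rw [sh_sh] at e2
    rw [e2] at e1
    have e3 : sh (ss a) (4 ^ M) 0 = ss a (4 ^ M) := by simp [sh]
    rw [e3] at e1
    exact e1
  rw [← e] at h4
  exact h4

/-- the limit distribution -/
noncomputable def FF (t : ℝ) : ℝ := Real.log (1 + max 0 (min t 1)) / Real.log 2

lemma FF_cont : Continuous FF := by
  unfold FF
  apply Continuous.div_const
  apply Continuous.log (by fun_prop)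
  intro x
  have : 0 ≤ max 0 (min x 1) := le_max_left _ _
  positivity

lemma FF_eq {t : ℝ} (h0 : 0 ≤ t) (h1 : t ≤ 1) : FF t = Real.log (1 + t) / Real.log 2 := by
  unfold FF; rw [min_eq_left h1, max_eq_right h0]

lemma cnt_all {u : ℕ → ℝ} (hu : ∀ n, u n ∈ Ico (0:ℝ) 1)
    (h : ∀ t : ℝ, 0 ≤ t → t ≤ 1 → Tendsto (fun N : ℕ => (cnt u t N : ℝ) / N) atTop
      (𝓝 (Real.log (1 + t) / Real.log 2))) (t : ℝ) :
    Tendsto (fun N : ℕ => (cnt u t N : ℝ) / N) atTop (𝓝 (FF t)) := by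
  have key : ∀ N, cnt u t N = cnt u (max 0 (min t 1)) N := by
    intro N
    unfold cnt
    congr 1
    apply Finset.filter_congr
    intro n _
    rw [lt_max_iff, lt_min_iff]
    constructor
    · intro h1; right; exact ⟨h1, (hu n).2⟩
    · rintro (h1 | h1)
      · linarith [(hu n).1]
      · exact h1.1
  have h1 := h (max 0 (min t 1)) (le_max_left _ _) (by simp)
  unfold FF
  exact h1.congr fun N => by rw [key]

/-- main result in terms of `gauss` -/
theorem main : ∃ x : ℝ, x ∈ Ioo (0:ℝ) 1 ∧ Irrational x ∧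
    (∀ t : ℝ, 0 ≤ t → t ≤ 1 → Tendsto (fun N : ℕ => (cnt (fun n => gauss^[n] x) t N : ℝ) / N) atTop
      (𝓝 (Real.log (1 + t) / Real.log 2))) ∧
    ¬ Tendsto (fun N : ℕ => (cnt (fun n => gauss^[n] (Int.fract (√2 * x + √2))) (1 / 2) N : ℝ) / N) atTop
      (𝓝 (Real.log (1 + 1 / 2) / Real.log 2)) := by
  classical
  obtain ⟨α, hα1, hα2, hα3⟩ := exists_normal
  obtain ⟨ha, -⟩ := dig_props hα1 hα2
  set a := dig α with ha_def
  have hs := ss_pos ha
  have hXa : X a = α := X_dig hα1 hα2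
  refine ⟨X (ss a), X_mem hs, X_irr hs, ?_, ?_⟩
  · have hv : ∀ t, Tendsto (fun N : ℕ => (cnt (fun n => gauss^[n] α) t N : ℝ) / N) atTop (𝓝 (FF t)) := by
      apply cnt_all
      · intro n; exact Ioo_subset_Ico_self (iter_mem hα1 hα2 n).2
      · exact hα3
    intro t h0 h1
    rw [← FF_eq h0 h1]
    refine freq_transfer FF_cont hv ?_ t
    intro δ hδ
    obtain ⟨L, hL⟩ : ∃ L : ℕ, 2 * (1 / 2 : ℝ) ^ L < δ := by
      obtain ⟨L, hL⟩ := exists_pow_lt_of_lt_one (show 0 < δ / 2 by positivity) (show (1/2:ℝ) < 1 by norm_num)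
      exact ⟨L, by linarith⟩
    refine squeeze_zero (fun N => by positivity) (fun N => ?_) (sparse L)
    gcongr with n hn
    intro h2
    by_contra hc
    have h3 : ∀ i < L, sh (ss a) n i = sh a n i := by
      intro i hi
      unfold sh
      apply ss_not
      rintro ⟨j, hj⟩
      exact hc ⟨j, by omega, by omega⟩
    have h4 := X_close (sh_good hs n) (sh_good ha n) h3
    rw [gauss_iter_X hs, ← hXa, gauss_iter_X ha] at h2
    linarith
  · intro hT
    set c := Real.log (1 + 1 / 2) / Real.log 2 with hc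
    have hcpos : 0 < c := div_pos (Real.log_pos (by norm_num)) (Real.log_pos (by norm_num))
    obtain ⟨N0, hN0⟩ := Metric.tendsto_atTop.1 hT (c / 20) (by positivity)
    obtain ⟨i, hi1, hi2⟩ := runs ha (max N0 7)
    set u := (fun n => gauss^[n] (Int.fract (√2 * X (ss a) + √2))) with hu
    have e : cnt u (1 / 2) (i + 1 + i / 3) = cnt u (1 / 2) (i + 1) := by
      unfold cnt
      congr 1
      ext n
      simp only [Finset.mem_filter, Finset.mem_range]
      constructor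
      · rintro ⟨h1, h2⟩
        refine ⟨?_, h2⟩
        by_contra h3
        have h4 := hi2 n (by omega) h1
        have h5 : u n < 1 / 2 := h2
        rw [hu] at h5
        simp only at h5
        linarith
      · rintro ⟨h1, h2⟩
        exact ⟨by omega, h2⟩
    have a1 := hN0 (i + 1 + i / 3) (by omega)
    have a2 := hN0 (i + 1) (by omega)
    rw [Real.dist_eq, abs_lt] at a1 a2
    rw [e] at a1
    have b1 : (6 / 5 : ℝ) * ((i + 1 : ℕ) : ℝ) ≤ ((i + 1 + i / 3 : ℕ) : ℝ) := by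
      have h6 : 6 * (i + 1) ≤ 5 * (i + 1 + i / 3) := by omega
      have h7 : (6 : ℝ) * ((i + 1 : ℕ) : ℝ) ≤ 5 * ((i + 1 + i / 3 : ℕ) : ℝ) := by exact_mod_cast h6
      linarith
    have hip : (0:ℝ) < ((i + 1 : ℕ) : ℝ) := by positivity
    have b2 : (cnt u (1 / 2) (i + 1) : ℝ) / ((i + 1 + i / 3 : ℕ) : ℝ) ≤
        5 / 6 * ((cnt u (1 / 2) (i + 1) : ℝ) / ((i + 1 : ℕ) : ℝ)) := by
      calc (cnt u (1 / 2) (i + 1) : ℝ) / ((i + 1 + i / 3 : ℕ) : ℝ) ≤
          (cnt u (1 / 2) (i + 1) : ℝ) / ((6 / 5 : ℝ) * ((i + 1 : ℕ) : ℝ)) := by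
            gcongr
        _ = _ := by field_simp
    linarith [a1.1, a1.2, a2.1, a2.2]

end Pool.Agent.R357.CF
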