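import Pool.Agent.R357.CF.Build

/-!
Cantor series: steering lemmas.
-/

set_option autoImplicit false

open Filter Set
open scoped Topology

namespace Pool.Agent.R357.CF

open Pool.Agent.W811.Stu Pool.Agent.W174.Stu

/-- the products `q_1 ⋯ q_n` -/
def Dq (q : ℕ → ℕ) (n : ℕ) : ℕ := ∏ i ∈ Finset.range n, q i

lemma Dq_succ (q : ℕ → ℕ) (n : ℕ) : Dq q (n + 1) = Dq q n * q n := by
  unfold Dq; rw [Finset.prod_range_succ]

lemma Dq_pos {q : ℕ → ℕ} (hq : ∀ n, 2 ≤ q n) (n : ℕ) : 1 ≤ Dq q n := by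
  induction n with
  | zero => simp [Dq]
  | succ n ih => rw [Dq_succ]; have := hq n; nlinarith

lemma Dq_dvd (q : ℕ → ℕ) {m n : ℕ} (h : m ≤ n) : Dq q m ∣ Dq q n := by
  obtain ⟨k, rfl⟩ := Nat.exists_eq_add_of_le h
  unfold Dq
  rw [Finset.prod_range_add]
  exact Dvd.intro _ rfl

lemma Dq_grow {q : ℕ → ℕ} (hq : ∀ n, 2 ≤ q n) {m n : ℕ} (h : m ≤ n) : 2 ^ (n - m) * Dq q m ≤ Dq q n := by
  obtain ⟨k, rfl⟩ := Nat.exists_eq_add_of_le h
  rw [Nat.add_sub_cancel_left]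
  induction k with
  | zero => simp
  | succ k ih =>
    have h1 := ih (by omega)
    rw [← add_assoc, Dq_succ, pow_succ]
    have := hq (m + k)
    calc 2 ^ k * 2 * Dq q m = (2 ^ k * Dq q m) * 2 := by ring
      _ ≤ Dq q (m + k) * q (m + k) := Nat.mul_le_mul h1 this

lemma Dq_mono {q : ℕ → ℕ} (hq : ∀ n, 2 ≤ q n) {m n : ℕ} (h : m ≤ n) : Dq q m ≤ Dq q n :=
  Nat.le_of_dvd (Dq_pos hq n) (Dq_dvd q h)

lemma Dq_ge {q : ℕ → ℕ} (hq : ∀ n, 2 ≤ q n) (n : ℕ) : 2 ^ n ≤ Dq q n := by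
  have := Dq_grow hq (Nat.zero_le n)
  simpa [Dq] using this

/-- the digit `k` which takes `phi w (1 / (k + z))` close to a given target `t` on the right side -/
lemma digit_target {w : List ℕ} (hw : Good w) {δ : ℝ} (hδ : 0 < δ) (hδQ : δ * (Q w : ℝ) ^ 2 ≤ 1 / 4) :
    ∃ k : ℕ, 1 ≤ k ∧ ∀ z ∈ Ioo (0:ℝ) 1,
      |phi w (1 / (k + z)) - (phi w 0 + (-1) ^ w.length * δ)| ≤ 8 * δ ^ 2 * (Q w : ℝ) ^ 2 := by
  have hQw1 : (1:ℝ) ≤ Q w := by exact_mod_cast Q_pos hw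
  have hQ'w : (Q' w : ℝ) ≤ Q w := by exact_mod_cast Q'_le hw
  have hδQ' : δ * Q w * Q' w ≤ 1 / 4 := by
    refine le_trans ?_ hδQ
    have : δ * Q w * Q' w ≤ δ * Q w * Q w := by gcongr
    calc _ ≤ _ := this
      _ = _ := by ring
  set τ := δ * (Q w : ℝ) ^ 2 / (1 - δ * Q w * Q' w) with hτ
  have hτpos : 0 < τ := div_pos (by positivity) (by linarith)
  have hτ2 : τ ≤ 2 * (δ * (Q w : ℝ) ^ 2) := by
    rw [hτ, div_le_iff₀ (by linarith)]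
    have : 0 < δ * (Q w : ℝ) ^ 2 := by positivity
    nlinarith
  have hτ3 : τ ≤ 1 / 2 := by linarith
  have hτmem : τ ∈ Icc (0:ℝ) 1 := ⟨hτpos.le, by linarith⟩
  have hx : phi w τ = phi w 0 + (-1) ^ w.length * δ := by
    have h1 := phi_sub hw hτpos.le (le_refl (0:ℝ))
    have h2 : (-1 : ℝ) ^ w.length * (τ - 0) / (((Q w : ℝ) + Q' w * τ) * ((Q w : ℝ) + Q' w * 0)) =
        (-1 : ℝ) ^ w.length * δ := by
      have h3 : (1 - δ * Q w * Q' w) ≠ 0 := by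
        intro h; linarith
      have h4 : τ * (1 - δ * Q w * Q' w) = δ * (Q w : ℝ) ^ 2 := by
        rw [hτ]; exact div_mul_cancel₀ _ h3
      have h5 : 0 < ((Q w : ℝ) + Q' w * τ) * ((Q w : ℝ) + Q' w * 0) := by
        have : (0:ℝ) ≤ Q' w := by positivity
        rw [mul_zero, add_zero]
        positivity
      rw [div_eq_iff h5.ne']
      linear_combination (-1 : ℝ) ^ w.length * h4
    rw [h2] at h1
    linarith
  set T := 1 / τ with hT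
  have hT2 : 2 ≤ T := by
    rw [hT, le_div_iff₀ hτpos]; linarith
  have hk1 := Nat.floor_le (show 0 ≤ T by linarith)
  have hk2 := Nat.lt_floor_add_one T
  set k := ⌊T⌋₊ with hk
  have hk3 : 1 ≤ k := by
    rw [hk]; apply Nat.le_floor; push_cast; linarith
  refine ⟨k, hk3, ?_⟩
  intro z hz
  have hTτ : τ = 1 / T := by rw [hT, one_div_one_div]
  have hτ' : |1 / ((k : ℝ) + z) - τ| ≤ 2 * τ ^ 2 := by
    rw [hTτ, div_sub_div _ _ (by linarith [hz.1]) (by linarith), abs_div,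
      abs_of_pos (show 0 < ((k:ℝ) + z) * T by apply mul_pos <;> linarith [hz.1])]
    have h1 : |1 * T - (↑k + z) * 1| ≤ 1 := by
      rw [abs_le]; constructor <;> linarith [hz.1, hz.2]
    have h2 : T / 2 * T ≤ ((k:ℝ) + z) * T := by
      apply mul_le_mul_of_nonneg_right _ (by linarith)
      linarith [hz.1]
    have hTp : 0 < T := by linarith
    calc |1 * T - (↑k + z) * 1| / (((k:ℝ) + z) * T) ≤ 1 / (T / 2 * T) := by
          apply div_le_div₀ (by norm_num) h1 (by positivity) h2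
      _ = 2 * (1 / T) ^ 2 := by field_simp
  have hk3' : (1:ℝ) ≤ k := by exact_mod_cast hk3
  have hmem' : 1 / ((k : ℝ) + z) ∈ Icc (0:ℝ) 1 := by
    have : (1:ℝ) ≤ k + z := by linarith [hz.1]
    refine ⟨by positivity, ?_⟩
    rw [div_le_one (by linarith)]; exact this
  rw [← hx]
  refine ((phi_abs hw hmem' hτmem).2).trans ?_
  rw [div_le_iff₀ (by positivity)]
  calc |1 / ((k : ℝ) + z) - τ| ≤ 2 * τ ^ 2 := hτ'
    _ ≤ 2 * (2 * (δ * (Q w : ℝ) ^ 2)) ^ 2 := by gcongr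
    _ = _ := by ring

/-- Case 1: steering towards a multiple of `1 / (q_1 ⋯ q_n)` -/
lemma steer1 {q : ℕ → ℕ} (hq : ∀ n, 2 ≤ q n) {j : ℕ}
    (H : ∀ K n0 : ℕ, ∃ n, n0 ≤ n ∧ K * Dq q (n + n / j) ≤ Dq q n ^ 2) {w : List ℕ} (hw : Good w) (M0 : ℕ) :
    ∃ k n : ℕ, 1 ≤ k ∧ M0 ≤ n ∧ ∀ z ∈ Ioo (0:ℝ) 1, ∀ n', n ≤ n' → n' ≤ n + n / j →
      ¬ (1 / 4 ≤ Int.fract (Dq q n' * phi w (1 / (k + z))) ∧
        Int.fract (Dq q n' * phi w (1 / (k + z))) < 3 / 4) := by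
  obtain ⟨n, hn1, hn2⟩ := H (64 * Q w ^ 2) (max M0 (4 * Q w ^ 2))
  have hD1 : 1 ≤ Dq q n := Dq_pos hq n
  have hDr : (0:ℝ) < Dq q n := by exact_mod_cast hD1
  have hDn : 4 * Q w ^ 2 ≤ Dq q n := by
    have h1 := Dq_ge hq n
    have h2 : n < 2 ^ n := Nat.lt_two_pow_self
    omega
  have hDn' : 4 * (Q w : ℝ) ^ 2 ≤ Dq q n := by exact_mod_cast hDn
  -- the target
  obtain ⟨δ, m, hδ0, hδ1, hm⟩ : ∃ (δ : ℝ) (m : ℤ), 0 < δ ∧ δ ≤ 1 / Dq q n ∧
      phi w 0 + (-1) ^ w.length * δ = m / Dq q n := by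
    set u := phi w 0
    rcases neg_one_pow_eq_or ℝ w.length with e | e
    · refine ⟨(⌊Dq q n * u⌋ + 1 : ℤ) / Dq q n - u, ⌊Dq q n * u⌋ + 1, ?_, ?_, ?_⟩
      · rw [sub_pos, lt_div_iff₀ hDr]
        have := Int.lt_floor_add_one (Dq q n * u)
        push_cast
        linarith
      · have := Int.floor_le (Dq q n * u)
        rw [sub_le_iff_le_add, div_le_iff₀ hDr, add_mul, one_div, inv_mul_cancel₀ hDr.ne']
        push_cast
        linarith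
      · rw [e]; ring
    · refine ⟨u - (⌈Dq q n * u⌉ - 1 : ℤ) / Dq q n, ⌈Dq q n * u⌉ - 1, ?_, ?_, ?_⟩
      · rw [sub_pos, div_lt_iff₀ hDr]
        have := Int.ceil_lt_add_one (Dq q n * u)
        push_cast
        linarith
      · have := Int.le_ceil (Dq q n * u)
        rw [sub_le_iff_le_add, ← add_div, le_div_iff₀ hDr]
        push_cast
        linarith
      · rw [e]; ring
  have hδQ : δ * (Q w : ℝ) ^ 2 ≤ 1 / 4 := by
    calc δ * (Q w : ℝ) ^ 2 ≤ 1 / Dq q n * (Q w : ℝ) ^ 2 := by gcongr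
      _ ≤ 1 / 4 := by
        rw [one_div, inv_mul_le_iff₀ hDr]
        linarith
  obtain ⟨k, hk, hz⟩ := digit_target hw hδ0 hδQ
  refine ⟨k, n, hk, by omega, ?_⟩
  intro z hzm n' hn' hn'2 ⟨h1, h2⟩
  set x := phi w (1 / (k + z)) with hx
  have h3 := hz z hzm
  rw [hm] at h3
  -- multiply by D_{n'}
  obtain ⟨c, hc⟩ := Dq_dvd q hn'
  have hD'r : (0:ℝ) < Dq q n' := by exact_mod_cast Dq_pos hq n'
  have e1 : (Dq q n' : ℝ) * (m / Dq q n) = ((c * m : ℤ) : ℝ) := by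
    rw [hc]; push_cast; field_simp
  have h4 : |(Dq q n' : ℝ) * x - ((c * m : ℤ) : ℝ)| ≤ 1 / 8 := by
    rw [← e1, ← mul_sub, abs_mul, abs_of_pos hD'r]
    have h5 : (Dq q n' : ℝ) ≤ Dq q (n + n / j) := by exact_mod_cast Dq_mono hq hn'2
    have h6 : 64 * (Q w : ℝ) ^ 2 * Dq q (n + n / j) ≤ (Dq q n : ℝ) ^ 2 := by exact_mod_cast hn2
    have h7 : 8 * δ ^ 2 * (Q w : ℝ) ^ 2 ≤ 8 * (1 / Dq q n) ^ 2 * (Q w : ℝ) ^ 2 := by gcongr
    calc (Dq q n' : ℝ) * |x - m / Dq q n| ≤ Dq q (n + n / j) * (8 * (1 / Dq q n) ^ 2 * (Q w : ℝ) ^ 2) := by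
          apply mul_le_mul h5 (h3.trans h7) (abs_nonneg _) (by positivity)
      _ = (64 * (Q w : ℝ) ^ 2 * Dq q (n + n / j)) / (8 * (Dq q n : ℝ) ^ 2) := by field_simp; ring
      _ ≤ 1 / 8 := by
          rw [div_le_div_iff₀ (by positivity) (by norm_num)]
          linarith
  obtain ⟨h5, h6⟩ := abs_le.1 h4
  have h7 := Int.floor_add_fract ((Dq q n' : ℝ) * x)
  set f := Int.fract ((Dq q n' : ℝ) * x)
  set g : ℤ := ⌊(Dq q n' : ℝ) * x⌋ - c * m with hg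
  have h8 : ((⌊(Dq q n' : ℝ) * x⌋ : ℤ) : ℝ) - ((c * m : ℤ) : ℝ) = (g : ℝ) := by rw [hg]; push_cast; ring
  have h9 : (-1:ℝ) < g := by linarith
  have h10 : (g : ℝ) < 0 := by linarith
  have h11 : (-1 : ℤ) < g := by exact_mod_cast h9
  have h12 : g < 0 := by exact_mod_cast h10
  omega

end Pool.Agent.R357.CF
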