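import Pool.Agent.R357.CF.Cantor

/-!
Cantor series: Case 1.
-/

set_option autoImplicit false

open Filter Set
open scoped Topology

namespace Pool.Agent.R357.CF

open Pool.Agent.W811.Stu Pool.Agent.W174.Stu

/-- the sequence `(T_{Q,n}(x))` is uniformly distributed mod 1 -/
def DN (q : ℕ → ℕ) : Set ℝ := {x | ∀ a b : ℝ, 0 ≤ a → a < b → b ≤ 1 →
  Tendsto (fun N : ℕ => (((Finset.range N).filter (fun n =>
    a ≤ Int.fract (((∏ i ∈ Finset.range n, q i : ℕ) : ℝ) * x) ∧
      Int.fract (((∏ i ∈ Finset.range n, q i : ℕ) : ℝ) * x) < b)).card : ℝ) / N) atTop (𝓝 (b - a))}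

/-- normality with respect to the regular continued fraction expansion -/
def NCF : Set ℝ := {x | Irrational x ∧ ∀ t : ℝ, 0 ≤ t → t ≤ 1 →
  Tendsto (fun N : ℕ => (((Finset.range N).filter (fun n =>
    (fun y : ℝ => Int.fract (1 / y))^[n] (Int.fract x) < t)).card : ℝ) / N) atTop
    (𝓝 (Real.log (1 + t) / Real.log 2))}

lemma gauss_eq : (fun y : ℝ => Int.fract (1 / y)) = gauss := by
  funext y
  simp [gauss]

/-- the modified digits: the word so far -/
noncomputable def LLg (K : List ℕ → ℕ) (a : ℕ → ℕ) : ℕ → List ℕ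
  | 0 => []
  | n + 1 => LLg K a n ++ [by classical exact if ∃ j, n = 4 ^ j then K (LLg K a n) else a n]

/-- the modified digits -/
noncomputable def ssg (K : List ℕ → ℕ) (a : ℕ → ℕ) (n : ℕ) : ℕ := by
  classical exact if ∃ j, n = 4 ^ j then K (LLg K a n) else a n

lemma pre_ssg (K : List ℕ → ℕ) (a : ℕ → ℕ) (n : ℕ) : pre (ssg K a) n = LLg K a n := by
  induction n with
  | zero => simp [pre, LLg]
  | succ n ih => rw [pre_succ, ih]; rfl

/-- a normal number with inserted digits -/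
theorem insert (K : List ℕ → ℕ) (hK : ∀ w, 1 ≤ K w) : ∃ s : ℕ → ℕ, (∀ n, 1 ≤ s n) ∧
    (∀ M, s (4 ^ M) = K (pre s (4 ^ M))) ∧ X s ∈ NCF := by
  classical
  obtain ⟨α, hα1, hα2, hα3⟩ := exists_normal
  obtain ⟨ha, -⟩ := dig_props hα1 hα2
  set a := dig α with ha_def
  have hXa : X a = α := X_dig hα1 hα2
  have hs : ∀ n, 1 ≤ ssg K a n := by
    intro n
    unfold ssg
    split_ifs
    · exact hK _
    · exact ha n
  have hnot : ∀ {n : ℕ}, (¬ ∃ j, n = 4 ^ j) → ssg K a n = a n := by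
    intro n h
    unfold ssg; rw [if_neg h]
  refine ⟨ssg K a, hs, ?_, X_irr hs, ?_⟩
  · intro M
    rw [pre_ssg]
    unfold ssg
    rw [if_pos ⟨M, rfl⟩]
  · have hv : ∀ t, Tendsto (fun N : ℕ => (cnt (fun n => gauss^[n] α) t N : ℝ) / N) atTop (𝓝 (FF t)) := by
      apply cnt_all
      · intro n; exact Ioo_subset_Ico_self (iter_mem hα1 hα2 n).2
      · exact hα3
    have hfr : Int.fract (X (ssg K a)) = X (ssg K a) :=
      Int.fract_eq_self.2 ⟨(X_mem hs).1.le, (X_mem hs).2⟩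
    rw [hfr, gauss_eq]
    intro t h0 h1
    rw [← FF_eq h0 h1]
    refine freq_transfer FF_cont hv ?_ t
    intro δ hδ
    obtain ⟨L, hL⟩ : ∃ L : ℕ, 2 * (1 / 2 : ℝ) ^ L < δ := by
      obtain ⟨L, hL⟩ := exists_pow_lt_of_lt_one (show 0 < δ / 2 by positivity) (show (1/2:ℝ) < 1 by norm_num)
      exact ⟨L, by linarith⟩
    refine squeeze_zero (fun N => by positivity) (fun N => ?_) (sparse L)
    gcongr with n hn
    intro h2
    by_contra hc
    have h3 : ∀ i < L, sh (ssg K a) n i = sh a n i := by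
      intro i hi
      unfold sh
      apply hnot
      rintro ⟨j, hj⟩
      exact hc ⟨j, by omega, by omega⟩
    have h4 := X_close (sh_good hs n) (sh_good ha n) h3
    rw [gauss_iter_X hs, ← hXa, gauss_iter_X ha] at h2
    linarith

/-- a counting function with long gaps has no positive density -/
lemma run_contra (P : ℕ → Prop) [DecidablePred P] {c : ℝ} (hc : 0 < c)
    (hlim : Tendsto (fun N : ℕ => (((Finset.range N).filter P).card : ℝ) / N) atTop (𝓝 c)) {j : ℕ}
    (hj : 1 ≤ j) (hrun : ∀ M, ∃ n g : ℕ, M ≤ n ∧ n ≤ j * g ∧ ∀ n', n ≤ n' → n' < n + g → ¬ P n') : False := by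
  have hjr : (1:ℝ) ≤ j := by exact_mod_cast hj
  obtain ⟨N0, hN0⟩ := Metric.tendsto_atTop.1 hlim (c / (4 * (j + 1))) (by positivity)
  obtain ⟨n, g, h1, h7, h4⟩ := hrun (max N0 1)
  have h5 : (Finset.range (n + g)).filter P = (Finset.range n).filter P := by
    ext m
    simp only [Finset.mem_filter, Finset.mem_range]
    constructor
    · rintro ⟨a1, a2⟩
      refine ⟨?_, a2⟩
      by_contra a3
      exact h4 m (by omega) (by omega) a2
    · rintro ⟨a1, a2⟩
      exact ⟨by omega, a2⟩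
  have a1 := hN0 n (by omega)
  have a2 := hN0 (n + g) (by omega)
  rw [h5] at a2
  rw [Real.dist_eq, abs_lt] at a1 a2
  have hn1 : 1 ≤ n := by omega
  have hnr : (1:ℝ) ≤ n := by exact_mod_cast hn1
  set C : ℝ := (((Finset.range n).filter P).card : ℝ) with hC
  have hC0 : 0 ≤ C := by rw [hC]; positivity
  have b1 : (j + 1 : ℝ) / j * n ≤ ((n + g : ℕ) : ℝ) := by
    have h8 : (n : ℝ) ≤ j * (g : ℝ) := by exact_mod_cast h7
    rw [div_mul_eq_mul_div, div_le_iff₀ (by positivity)]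
    push_cast
    linarith
  have b2 : C / ((n + g : ℕ) : ℝ) ≤ C / ((j + 1 : ℝ) / j * n) := by
    apply div_le_div_of_nonneg_left hC0 (by positivity) b1
  have b3 : C / ((j + 1 : ℝ) / j * n) = (j / (j + 1)) * (C / n) := by
    field_simp
  rw [b3] at b2
  have b4 : C / n < c + c / (4 * (j + 1)) := by linarith [a1.2]
  have b5 : (j / (j + 1 : ℝ)) * (C / n) ≤ (j / (j + 1)) * (c + c / (4 * (j + 1))) := by
    apply mul_le_mul_of_nonneg_left b4.le (by positivity)
  have b6 : (j / (j + 1 : ℝ)) * (c + c / (4 * (j + 1))) ≤ c - c / (4 * (j + 1)) := by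
    have e1 : (j / (j + 1 : ℝ)) * (c + c / (4 * (j + 1))) =
      c * (j * (4 * (j + 1) + 1)) / (4 * (j + 1) ^ 2) := by field_simp
    have e2 : (c - c / (4 * (j + 1)) : ℝ) = c * (4 * (j + 1) - 1) / (4 * (j + 1)) := by field_simp
    rw [e1, e2, div_le_div_iff₀ (by positivity) (by positivity)]
    have : (j * (4 * ((j : ℝ) + 1) + 1)) ≤ (4 * (j + 1) - 1) * (j + 1) := by nlinarith
    calc c * (j * (4 * ((j : ℝ) + 1) + 1)) * (4 * (j + 1)) ≤
        c * ((4 * (j + 1) - 1) * (j + 1)) * (4 * (j + 1)) := by gcongr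
      _ = _ := by ring
  linarith [a2.1]

theorem case1 {q : ℕ → ℕ} (hq : ∀ n, 2 ≤ q n) {j : ℕ} (hj : 1 ≤ j)
    (H : ∀ K n0 : ℕ, ∃ n, n0 ≤ n ∧ K * Dq q (n + n / j) ≤ Dq q n ^ 2) : DN q ≠ NCF := by
  classical
  intro hE
  set K : List ℕ → ℕ := fun w => if h : Good w then (steer1 hq H h w.length).choose else 1 with hKdef
  have hK : ∀ w, 1 ≤ K w := by
    intro w
    rw [hKdef]
    simp only
    split_ifs with h
    · obtain ⟨n, h1, _⟩ := (steer1 hq H h w.length).choose_spec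
      exact h1
    · exact le_rfl
  obtain ⟨s, hs, hs4, hX⟩ := insert K hK
  rw [← hE] at hX
  have hlim := hX (1 / 4) (3 / 4) (by norm_num) (by norm_num) (by norm_num)
  set P : ℕ → Prop := fun n => 1 / 4 ≤ Int.fract ((Dq q n : ℝ) * X s) ∧
      Int.fract ((Dq q n : ℝ) * X s) < 3 / 4 with hP
  have hlim : Tendsto (fun N : ℕ => (((Finset.range N).filter P).card : ℝ) / N) atTop (𝓝 (1 / 2)) := by
    have e : (3 / 4 : ℝ) - 1 / 4 = 1 / 2 := by norm_num
    rw [e] at hlim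
    refine hlim.congr fun N => ?_
    rfl
  refine run_contra P (by norm_num) hlim hj ?_
  intro M
  obtain ⟨n, h1, h2, h3⟩ : ∃ n : ℕ, 1 ≤ K (pre s (4 ^ M)) ∧ (pre s (4 ^ M)).length ≤ n ∧
      ∀ z ∈ Ioo (0:ℝ) 1, ∀ n', n ≤ n' → n' ≤ n + n / j →
      ¬ (1 / 4 ≤ Int.fract (Dq q n' * phi (pre s (4 ^ M)) (1 / (K (pre s (4 ^ M)) + z))) ∧
        Int.fract (Dq q n' * phi (pre s (4 ^ M)) (1 / (K (pre s (4 ^ M)) + z))) < 3 / 4) := by
    have hg := pre_good hs (4 ^ M)
    have := (steer1 hq H hg (pre s (4 ^ M)).length).choose_spec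
    have e : K (pre s (4 ^ M)) = (steer1 hq H hg (pre s (4 ^ M)).length).choose := by
      rw [hKdef]
      simp only
      rw [dif_pos hg]
    rw [e]
    exact this
  rw [pre_length] at h2
  have e : X s = phi (pre s (4 ^ M)) (1 / (K (pre s (4 ^ M)) + X (sh s (4 ^ M + 1)))) := by
    rw [← hs4]
    have e1 := X_pre hs (4 ^ M)
    have e2 := X_eq (sh_good hs (4 ^ M))
    rw [sh_sh] at e2
    rw [e2] at e1
    have e3 : sh s (4 ^ M) 0 = s (4 ^ M) := by simp [sh]
    rw [e3] at e1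
    exact e1
  have h6 : M < 4 ^ M := Nat.lt_pow_self (by norm_num)
  refine ⟨n, n / j + 1, by omega, (Nat.lt_mul_div_succ n (show 0 < j by omega)).le, ?_⟩
  intro n' ha hb
  have := h3 _ (X_mem (sh_good hs (4 ^ M + 1))) n' ha (by omega)
  rw [← e] at this
  exact this

end Pool.Agent.R357.CF
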