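import Pool.Agent.R357.CF.Cantor1

/-!
Cantor series: Case 2, one step.
-/

set_option autoImplicit false

open Filter Set
open scoped Topology

namespace Pool.Agent.R357.CF

open Pool.Agent.W811.Stu Pool.Agent.W174.Stu

lemma Q_pre_mono {s : ℕ → ℕ} (hs : ∀ n, 1 ≤ s n) {m n : ℕ} (h : m ≤ n) : Q (pre s m) ≤ Q (pre s n) := by
  induction n, h using Nat.le_induction with
  | base => exact le_rfl
  | succ n _ ih =>
    rw [pre_succ]
    exact ih.trans (Q_le_append (hs n))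

lemma exE {q : ℕ → ℕ} (hq : ∀ n, 2 ≤ q n) {j : ℕ} (hj : 1 ≤ j) {K n0 : ℕ}
    (H : ∀ n, n0 ≤ n → Dq q n ^ 2 < K * Dq q (n + n / j)) {x0 : ℝ} (hx : Irrational x0)
    (hx0 : x0 ∈ Ioo (0:ℝ) 1) (M : ℕ) : ∃ (n N i m : ℕ) (x1 δ : ℝ) (a : ℤ), M ≤ n ∧ n ≤ N ∧
      j * N ≤ (j + 1) * n ∧ M ≤ i ∧ i ≤ 6 * m ∧ 0 < δ ∧
      Irrational x1 ∧ x1 ∈ Ioo (0:ℝ) 1 ∧ |x1 - x0| ≤ 1 / Dq q n ∧ (Dq q N : ℝ) * (x1 - x0) = a ∧
      ∀ x : ℝ, |x - x1| < δ → ∀ l, i ≤ l → l < i + m → 1 / 2 < gauss^[l] (Int.fract x) := by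
  obtain ⟨hd, hdf⟩ := dig_props hx hx0
  have hst := dig_step hx hx0
  have him := fun n => (iter_mem hx hx0 n).2
  set d := dig x0 with hd_def
  set M' := max M (4 * K + 40) with hM'
  obtain ⟨n, hn1, hn2, hn3, hn4⟩ : ∃ n, M ≤ n ∧ n0 ≤ n ∧ j ≤ n ∧ Q (pre d (M' + 1)) ^ 2 ≤ n :=
    ⟨max (max M n0) (max j (Q (pre d (M' + 1)) ^ 2)), by omega, by omega, by omega, by omega⟩
  have Hn := H n hn2
  obtain ⟨D, hD⟩ : ∃ D, D = Dq q n := ⟨_, rfl⟩
  have hDn : n < D := by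
    rw [hD]
    exact lt_of_lt_of_le Nat.lt_two_pow_self (Dq_ge hq n)
  have hex : ∃ i, 4 * D ≤ Q (pre d i) ^ 2 := by
    refine ⟨D + 3, ?_⟩
    have h1 := (Q_grow (pre_good hd (D + 3))).1
    rw [pre_length] at h1
    have h2 : D < 2 ^ D := Nat.lt_two_pow_self
    have h3 : 2 ^ (D + 3) = 8 * 2 ^ D := by ring
    omega
  classical
  obtain ⟨i0, hi0⟩ : ∃ i0, i0 = Nat.find hex := ⟨_, rfl⟩
  have hi1 : 4 * D ≤ Q (pre d i0) ^ 2 := by rw [hi0]; exact Nat.find_spec hex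
  have hi2 : ∀ i < i0, Q (pre d i) ^ 2 < 4 * D := by
    intro i hi
    rw [hi0] at hi
    have := Nat.find_min hex hi
    omega
  have hi3 : M' + 1 < i0 := by
    by_contra h
    rw [not_lt] at h
    have h1 := Q_pre_mono hd h
    have h2 : Q (pre d i0) ^ 2 ≤ Q (pre d (M' + 1)) ^ 2 := Nat.pow_le_pow_left h1 2
    omega
  obtain ⟨i, rfl⟩ : ∃ i, i0 = i + 1 := ⟨i0 - 1, by omega⟩
  have hqi := hi2 i (by omega)
  have hgi : Good (pre d i) := pre_good hd i
  obtain ⟨q0, hq0⟩ : ∃ q0, q0 = Q (pre d i) := ⟨_, rfl⟩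
  rw [← hq0] at hqi
  have hq1 : 1 ≤ q0 := by rw [hq0]; exact Q_pos hgi
  obtain ⟨κ, hκ⟩ : ∃ κ, κ = 4 * D / q0 ^ 2 + 1 := ⟨_, rfl⟩
  have hκ1 : 4 * D < κ * q0 ^ 2 := by
    have := Nat.lt_mul_div_succ (4 * D) (show 0 < q0 ^ 2 by positivity)
    rw [hκ, mul_comm (4 * D / q0 ^ 2 + 1)]
    exact this
  have hκ0 : 1 ≤ κ := by rw [hκ]; exact Nat.succ_pos _
  have hκ2 : κ * q0 ^ 2 ≤ 4 * D + q0 ^ 2 := by
    rw [hκ, add_mul, one_mul]
    have := Nat.div_mul_le_self (4 * D) (q0 ^ 2)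
    omega
  obtain ⟨k, hk⟩ : ∃ k, k = min (d i) κ := ⟨_, rfl⟩
  have hk1 : 1 ≤ k := by have := hd i; omega
  obtain ⟨m, hm⟩ : ∃ m, m = i / 4 := ⟨_, rfl⟩
  obtain ⟨v, hv_def⟩ : ∃ v, v = pre d i ++ [k] := ⟨_, rfl⟩
  have hv : Good v := by rw [hv_def]; exact hgi.append (good_single hk1)
  have hvl : v.length = i + 1 := by simp [hv_def, pre_length]
  obtain ⟨W, hW_def⟩ : ∃ W, W = v ++ List.replicate m 1 := ⟨_, rfl⟩
  have hW : Good W := by rw [hW_def]; exact hv.append (good_rep m)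
  -- sizes
  have hQv : Q v * q0 ≤ 12 * D := by
    have h1 : Q v = k * q0 + Q' (pre d i) := by rw [hv_def, Q_append, hq0]
    have h2 : Q' (pre d i) ≤ q0 := by rw [hq0]; exact Q'_le hgi
    have h3 : k ≤ κ := by omega
    calc Q v * q0 ≤ (κ * q0 + q0) * q0 := by
          rw [h1]
          apply Nat.mul_le_mul_right
          apply Nat.add_le_add _ h2
          exact Nat.mul_le_mul_right _ h3
      _ = κ * q0 ^ 2 + q0 ^ 2 := by ring
      _ ≤ 12 * D := by omega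
  have hq2 : 48 * K * 2 ^ m ≤ q0 := by
    have h1 := (Q_grow hgi).2.2
    rw [pre_length, ← hq0] at h1
    have h2 : K < 2 ^ K := Nat.lt_two_pow_self
    calc 48 * K * 2 ^ m ≤ 64 * 2 ^ K * 2 ^ m := by
          apply Nat.mul_le_mul_right
          omega
      _ = 2 ^ (6 + K + m) := by rw [pow_add, pow_add]; norm_num
      _ ≤ 2 ^ (i / 2) := Nat.pow_le_pow_right (by norm_num) (by omega)
      _ ≤ q0 := h1
  have hQW : Q W ≤ 2 ^ m * Q v := by rw [hW_def]; exact Q_rep hv m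
  have hQv1 : 1 ≤ Q v := Q_pos hv
  have hQW1 : 1 ≤ Q W := Q_pos hW
  have hKW : 4 * K * Q W ≤ D := by
    have h1 : 12 * (4 * K * Q W) ≤ 12 * D := by
      calc 12 * (4 * K * Q W) = 48 * K * Q W := by ring
        _ ≤ 48 * K * (2 ^ m * Q v) := Nat.mul_le_mul_left _ hQW
        _ = (48 * K * 2 ^ m) * Q v := by ring
        _ ≤ q0 * Q v := Nat.mul_le_mul_right _ hq2
        _ = Q v * q0 := mul_comm _ _
        _ ≤ 12 * D := hQv
    omega
  obtain ⟨DN', hDN⟩ : ∃ DN', DN' = Dq q (n + n / j) := ⟨_, rfl⟩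
  rw [← hDN, ← hD] at Hn
  have hK1 : 1 ≤ K := by
    rcases Nat.eq_zero_or_pos K with h | h
    · rw [h, zero_mul] at Hn; omega
    · exact h
  have hDN2 : 16 * Q W ^ 2 < DN' := by
    have h1 : K * (16 * Q W ^ 2) < K * DN' := by
      calc K * (16 * Q W ^ 2) ≤ K * (K * (16 * Q W ^ 2)) := by
            apply Nat.mul_le_mul_left
            exact Nat.le_mul_of_pos_left _ hK1
        _ = (4 * K * Q W) ^ 2 := by ring
        _ ≤ D ^ 2 := Nat.pow_le_pow_left hKW 2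
        _ < K * DN' := Hn
    exact Nat.lt_of_mul_lt_mul_left h1
  have hnj : 1 ≤ n / j := (Nat.one_le_div_iff (by omega)).2 hn3
  have hDN3 : 2 * D ≤ DN' := by
    have h1 := Dq_grow hq (show n + 1 ≤ n + n / j by omega)
    have h2 : Dq q (n + 1) ≤ DN' := by
      rw [hDN]; exact Dq_mono hq (by omega)
    rw [Dq_succ, ← hD] at h2
    have := hq n
    calc 2 * D = D * 2 := by ring
      _ ≤ D * q n := Nat.mul_le_mul_left _ this
      _ ≤ DN' := h2
  -- reals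
  have hDr : (0:ℝ) < D := by have : 0 < D := by omega
                             exact_mod_cast this
  have hDNr : (0:ℝ) < DN' := by have : 0 < DN' := by omega
                                exact_mod_cast this
  have hQWr : (1:ℝ) ≤ Q W := by exact_mod_cast hQW1
  obtain ⟨g, hg_def⟩ : ∃ g, g = phi (List.replicate m 1) (1 / 2) := ⟨_, rfl⟩
  have hg : g ∈ Ioo (0:ℝ) 1 := by rw [hg_def]; exact phi_mem (good_rep m) (by norm_num)
  obtain ⟨y, hy⟩ : ∃ y, y = phi W (1 / 2) := ⟨_, rfl⟩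
  have hy1 : y = phi v g := by rw [hy, hW_def, phi_append, hg_def]
  have hyx : |y - x0| ≤ 1 / (2 * D) := by
    rcases Nat.lt_or_ge κ (d i) with h | h
    · have hkκ : k = κ := by omega
      have e1 : y = phi (pre d i) (1 / (k + g)) := by
        rw [hy1, hv_def, phi_append]; rfl
      have e2 := hdf i
      rw [(hst i).2] at e2
      have hkr : (1:ℝ) ≤ k := by exact_mod_cast hk1
      have hdk : (k:ℝ) ≤ d i := by
        have : k ≤ d i := by omega
        exact_mod_cast this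
      have hz1 := him (i + 1)
      set z1 := gauss^[i + 1] x0 with hz1_def
      have m1 : 1 / ((k:ℝ) + g) ∈ Icc (0:ℝ) (1 / k) := by
        refine ⟨by have := hg.1; positivity, ?_⟩
        apply one_div_le_one_div_of_le (by linarith) (by linarith [hg.1])
      have m2 : 1 / ((d i:ℝ) + z1) ∈ Icc (0:ℝ) (1 / k) := by
        refine ⟨by have := hz1.1; positivity, ?_⟩
        apply one_div_le_one_div_of_le (by linarith) (by linarith [hz1.1])
      have hk' : 1 / (k : ℝ) ≤ 1 := by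
        rw [div_le_one (by linarith)]; exact hkr
      have h1 := (phi_abs hgi (z := 1 / ((k:ℝ) + g)) (z' := 1 / ((d i:ℝ) + z1))
        ⟨m1.1, m1.2.trans hk'⟩ ⟨m2.1, m2.2.trans hk'⟩).2
      rw [← e1, ← e2, ← hq0] at h1
      refine h1.trans ?_
      have h2 : |1 / ((k:ℝ) + g) - 1 / ((d i:ℝ) + z1)| ≤ 1 / k := by
        rw [abs_le]; constructor <;> linarith [m1.1, m1.2, m2.1, m2.2]
      have hq0r : (1:ℝ) ≤ q0 := by exact_mod_cast hq1
      have h3 : (4 * (D:ℝ)) ≤ k * (q0:ℝ) ^ 2 := by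
        have : 4 * D ≤ k * q0 ^ 2 := by rw [hkκ]; omega
        exact_mod_cast this
      calc |1 / ((k:ℝ) + g) - 1 / ((d i:ℝ) + z1)| / (q0:ℝ) ^ 2 ≤ (1 / k) / (q0:ℝ) ^ 2 := by gcongr
        _ = 1 / (k * (q0:ℝ) ^ 2) := by rw [div_div]
        _ ≤ 1 / (2 * D) := by
          apply one_div_le_one_div_of_le (by positivity)
          linarith
    · have hkκ : k = d i := by omega
      have e0 : v = pre d (i + 1) := by rw [hv_def, pre_succ, hkκ]
      have e2 := hdf (i + 1)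
      rw [← e0] at e2 hi1
      have h1 := (phi_abs hv (Ioo_subset_Icc_self hg) (Ioo_subset_Icc_self (him (i + 1)))).2
      rw [← e2, ← hy1] at h1
      refine h1.trans ?_
      have h2 : |g - gauss^[i + 1] x0| ≤ 1 := by
        have := him (i + 1)
        rw [abs_le]; constructor <;> linarith [hg.1, hg.2, this.1, this.2]
      have h3 : (4 * (D:ℝ)) ≤ (Q v:ℝ) ^ 2 := by exact_mod_cast hi1
      calc |g - gauss^[i + 1] x0| / (Q v : ℝ) ^ 2 ≤ 1 / (2 * D) := by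
            apply div_le_div₀ (by norm_num) h2 (by positivity)
            linarith
        _ = _ := rfl
  -- the new point
  obtain ⟨a, ha⟩ : ∃ a : ℤ, a = ⌊(DN' : ℝ) * (y - x0)⌋ := ⟨_, rfl⟩
  obtain ⟨x1, hx1⟩ : ∃ x1, x1 = x0 + a / DN' := ⟨_, rfl⟩
  have hx1y : |x1 - y| ≤ 1 / DN' := by
    have h1 := Int.floor_le ((DN' : ℝ) * (y - x0))
    have h2 := Int.lt_floor_add_one ((DN' : ℝ) * (y - x0))
    rw [← ha] at h1 h2
    have e : x1 - y = ((a : ℝ) - DN' * (y - x0)) / DN' := by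
      rw [hx1]; field_simp; ring
    rw [e, abs_div, abs_of_pos hDNr]
    gcongr
    rw [abs_le]; constructor <;> linarith
  have hDNW : 1 / (DN' : ℝ) < 1 / (16 * (Q W : ℝ) ^ 2) := by
    apply one_div_lt_one_div_of_lt (by positivity)
    exact_mod_cast hDN2
  have hnear : ∀ x : ℝ, |x - x1| < 1 / (16 * (Q W : ℝ) ^ 2) → ∃ ζ ∈ Ioo (0:ℝ) 1, phi W ζ = x := by
    intro x hxx
    apply surj hW
    rw [← hy]
    have h1 : |x - y| ≤ |x - x1| + |x1 - y| := abs_sub_le _ _ _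
    have h2 : 1 / (8 * (Q W : ℝ) ^ 2) = 1 / (16 * (Q W : ℝ) ^ 2) + 1 / (16 * (Q W : ℝ) ^ 2) := by
      field_simp; norm_num
    rw [h2]
    linarith
  have hx1m : x1 ∈ Ioo (0:ℝ) 1 := by
    obtain ⟨ζ, hζ, e⟩ := hnear x1 (by rw [sub_self, abs_zero]; positivity)
    rw [← e]
    exact phi_mem hW hζ
  refine ⟨n, n + n / j, i + 1, m, x1, 1 / (16 * (Q W : ℝ) ^ 2), a, hn1, by omega, ?_, by omega,
    by omega, by positivity, ?_, hx1m, ?_, ?_, ?_⟩
  · have := Nat.mul_div_le n j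
    rw [mul_add, add_mul, one_mul]
    omega
  · rw [hx1]
    have e : x0 + (a : ℝ) / DN' = x0 + ((a / DN' : ℚ) : ℝ) := by push_cast; rfl
    rw [e]
    exact hx.add_ratCast _
  · rw [← hD]
    have h1 : |x1 - x0| ≤ |x1 - y| + |y - x0| := abs_sub_le _ _ _
    have h2 : 1 / (DN' : ℝ) ≤ 1 / (2 * D) := by
      apply one_div_le_one_div_of_le (by positivity)
      exact_mod_cast hDN3
    have h3 : 1 / (D : ℝ) = 1 / (2 * D) + 1 / (2 * D) := by field_simp; norm_num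
    linarith
  · rw [← hDN, hx1]
    field_simp
    ring
  · intro x hxx l hl1 hl2
    obtain ⟨ζ, hζ, e⟩ := hnear x hxx
    have h1 := phi_mem hW hζ
    have h2 : Int.fract x = phi W ζ := by
      rw [← e]
      exact Int.fract_eq_self.2 ⟨h1.1.le, h1.2⟩
    rw [h2, hW_def]
    exact run hv m hζ l (by omega) (by omega)

end Pool.Agent.R357.CF
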