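import Pool.Agent.R357.CF.Cantor2

/-!
Cantor series: Case 2, the construction.
-/

set_option autoImplicit false

open Filter Set
open scoped Topology

namespace Pool.Agent.R357.CF

open Pool.Agent.W811.Stu Pool.Agent.W174.Stu

/-- the uniform distribution function -/
noncomputable def UU (t : ℝ) : ℝ := max 0 (min t 1)

lemma cnt_allU {u : ℕ → ℝ} (hu : ∀ n, u n ∈ Ico (0:ℝ) 1)
    (h : ∀ t : ℝ, 0 ≤ t → t ≤ 1 → Tendsto (fun N : ℕ => (cnt u t N : ℝ) / N) atTop (𝓝 t)) (t : ℝ) :
    Tendsto (fun N : ℕ => (cnt u t N : ℝ) / N) atTop (𝓝 (UU t)) := by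
  have key : ∀ N, cnt u t N = cnt u (max 0 (min t 1)) N := by
    intro N
    unfold cnt
    congr 1
    apply Finset.filter_congr
    intro n _
    rw [lt_max_iff, lt_min_iff]
    constructor
    · intro h1; right; exact ⟨h1, (hu n).2⟩
    · rintro (h1 | h1)
      · linarith [(hu n).1]
      · exact h1.1
  have h1 := h (max 0 (min t 1)) (le_max_left _ _) (by simp)
  unfold UU
  exact h1.congr fun N => by rw [key]

lemma near_circle {u v δ : ℝ} (hu : u ∈ Ico (0:ℝ) 1) (hv : v ∈ Ico (0:ℝ) 1) (hδ : δ ≤ 1 / 2)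
    {m : ℤ} (h : |u - v - m| < δ) : v < δ ∨ 1 - δ < v ∨ |u - v| < δ := by
  rw [abs_lt] at h
  have h1 : (m : ℝ) < 2 := by linarith [hu.2, hv.1, h.1]
  have h2 : (-2 : ℝ) < m := by linarith [hu.1, hv.2, h.2]
  have h3 : m < 2 := by exact_mod_cast h1
  have h4 : -2 < m := by exact_mod_cast h2
  obtain rfl | rfl | rfl : m = -1 ∨ m = 0 ∨ m = 1 := by omega
  · right; left
    push_cast at h
    linarith [h.2, hu.1]
  · right; right
    push_cast at h
    rw [sub_zero] at h
    exact abs_lt.2 h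
  · left
    push_cast at h
    linarith [h.1, hu.2]

open scoped Classical in
lemma transfer_circle {u v : ℕ → ℝ} (hu : ∀ n, u n ∈ Ico (0:ℝ) 1) (hv : ∀ n, v n ∈ Ico (0:ℝ) 1)
    (h : ∀ t : ℝ, 0 ≤ t → t ≤ 1 → Tendsto (fun N : ℕ => (cnt v t N : ℝ) / N) atTop (𝓝 t))
    (hd : ∀ δ : ℝ, 0 < δ → Tendsto (fun N : ℕ =>
      (((Finset.range N).filter (fun n => ∀ m : ℤ, δ ≤ |u n - v n - m|)).card : ℝ) / N) atTop (𝓝 0))
    (t : ℝ) (ht0 : 0 ≤ t) (ht1 : t ≤ 1) :
    Tendsto (fun N : ℕ => (cnt u t N : ℝ) / N) atTop (𝓝 t) := by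
  have hall := cnt_allU hv h
  rw [Metric.tendsto_atTop]
  intro ε hε
  set δ := min (ε / 8) (1 / 2) with hδ
  have hδ0 : 0 < δ := by positivity
  have hδ1 : δ ≤ ε / 8 := min_le_left _ _
  have hδ2 : δ ≤ 1 / 2 := min_le_right _ _
  have U1 : UU (t + δ) ≤ t + δ := by
    unfold UU; rw [max_le_iff]; exact ⟨by linarith, min_le_left _ _⟩
  have U2 : t - δ ≤ UU (t - δ) := by
    unfold UU
    rw [le_max_iff]; right
    rw [le_min_iff]; exact ⟨le_rfl, by linarith⟩
  have U3 : UU δ ≤ δ := by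
    unfold UU; rw [max_le_iff]; exact ⟨by linarith, min_le_left _ _⟩
  have U4 : 1 - δ ≤ UU (1 - δ) := by
    unfold UU
    rw [le_max_iff]; right
    rw [le_min_iff]; exact ⟨le_rfl, by linarith⟩
  obtain ⟨N1, h1⟩ := Metric.tendsto_atTop.1 (hall (t + δ)) (ε / 8) (by positivity)
  obtain ⟨N2, h2⟩ := Metric.tendsto_atTop.1 (hall (t - δ)) (ε / 8) (by positivity)
  obtain ⟨N3, h3⟩ := Metric.tendsto_atTop.1 (hall δ) (ε / 8) (by positivity)
  obtain ⟨N4, h4⟩ := Metric.tendsto_atTop.1 (hall (1 - δ)) (ε / 8) (by positivity)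
  obtain ⟨N5, h5⟩ := Metric.tendsto_atTop.1 (hd δ hδ0) (ε / 8) (by positivity)
  refine ⟨max (max N1 N2) (max (max N3 N4) (max N5 1)), fun N hN => ?_⟩
  have h1 := h1 N (by omega)
  have h2 := h2 N (by omega)
  have h3 := h3 N (by omega)
  have h4 := h4 N (by omega)
  have h5 := h5 N (by omega)
  rw [Real.dist_eq, abs_lt] at h1 h2 h3 h4 h5 ⊢
  set B := ((Finset.range N).filter (fun n => ∀ m : ℤ, δ ≤ |u n - v n - m|)).card with hB
  set C := ((Finset.range N).filter (fun n => ¬ v n < 1 - δ)).card with hC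
  have hC1 : cnt v (1 - δ) N + C = N := by
    have := Finset.card_filter_add_card_filter_not (s := Finset.range N) (fun n => v n < 1 - δ)
    rw [Finset.card_range] at this
    exact this
  have good : ∀ n, ¬ (∀ m : ℤ, δ ≤ |u n - v n - m|) → ¬ (v n < δ) → v n < 1 - δ → |u n - v n| < δ := by
    intro n a b c
    push Not at a
    obtain ⟨m, hm⟩ := a
    rcases near_circle (hu n) (hv n) hδ2 hm with d | d | d
    · exact absurd d b
    · linarith
    · exact d
  have c1 : cnt u t N ≤ cnt v (t + δ) N + (B + (cnt v δ N + C)) := by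
    unfold cnt
    refine le_trans (Finset.card_le_card (t := (Finset.range N).filter (fun n => v n < t + δ) ∪
      ((Finset.range N).filter (fun n => ∀ m : ℤ, δ ≤ |u n - v n - m|) ∪
        ((Finset.range N).filter (fun n => v n < δ) ∪
          (Finset.range N).filter (fun n => ¬ v n < 1 - δ)))) ?_) ?_
    · intro n hn
      simp only [Finset.mem_union, Finset.mem_filter] at hn ⊢
      by_cases a : ∀ m : ℤ, δ ≤ |u n - v n - m|
      · exact Or.inr (Or.inl ⟨hn.1, a⟩)
      · by_cases b : v n < δ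
        · exact Or.inr (Or.inr (Or.inl ⟨hn.1, b⟩))
        · by_cases c : v n < 1 - δ
          · left
            have := good n a b c
            rw [abs_lt] at this
            exact ⟨hn.1, by linarith [hn.2]⟩
          · exact Or.inr (Or.inr (Or.inr ⟨hn.1, c⟩))
    · refine (Finset.card_union_le _ _).trans (Nat.add_le_add_left ?_ _)
      refine (Finset.card_union_le _ _).trans (Nat.add_le_add_left ?_ _)
      exact Finset.card_union_le _ _
  have c2 : cnt v (t - δ) N ≤ cnt u t N + (B + (cnt v δ N + C)) := by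
    unfold cnt
    refine le_trans (Finset.card_le_card (t := (Finset.range N).filter (fun n => u n < t) ∪
      ((Finset.range N).filter (fun n => ∀ m : ℤ, δ ≤ |u n - v n - m|) ∪
        ((Finset.range N).filter (fun n => v n < δ) ∪
          (Finset.range N).filter (fun n => ¬ v n < 1 - δ)))) ?_) ?_
    · intro n hn
      simp only [Finset.mem_union, Finset.mem_filter] at hn ⊢
      by_cases a : ∀ m : ℤ, δ ≤ |u n - v n - m|
      · exact Or.inr (Or.inl ⟨hn.1, a⟩)
      · by_cases b : v n < δ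
        · exact Or.inr (Or.inr (Or.inl ⟨hn.1, b⟩))
        · by_cases c : v n < 1 - δ
          · left
            have := good n a b c
            rw [abs_lt] at this
            exact ⟨hn.1, by linarith [hn.2]⟩
          · exact Or.inr (Or.inr (Or.inr ⟨hn.1, c⟩))
    · refine (Finset.card_union_le _ _).trans (Nat.add_le_add_left ?_ _)
      refine (Finset.card_union_le _ _).trans (Nat.add_le_add_left ?_ _)
      exact Finset.card_union_le _ _
  have hNr : (0:ℝ) < N := by
    have : 0 < N := by omega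
    exact_mod_cast this
  have hC2 : (cnt v (1 - δ) N : ℝ) / N + (C : ℝ) / N = 1 := by
    rw [← add_div, div_eq_one_iff_eq hNr.ne']
    exact_mod_cast hC1
  have d1 : (cnt u t N : ℝ) / N ≤ cnt v (t + δ) N / N + ((B : ℝ) / N + ((cnt v δ N : ℝ) / N + (C : ℝ) / N)) := by
    rw [← add_div, ← add_div, ← add_div]
    gcongr
    exact_mod_cast c1
  have d2 : (cnt v (t - δ) N : ℝ) / N ≤ cnt u t N / N + ((B : ℝ) / N + ((cnt v δ N : ℝ) / N + (C : ℝ) / N)) := by
    rw [← add_div, ← add_div, ← add_div]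
    gcongr
    exact_mod_cast c2
  constructor <;> linarith [h1.1, h1.2, h2.1, h2.2, h3.1, h3.2, h4.1, h4.2, h5.1, h5.2]

open scoped Classical in
/-- the exceptional set has density zero -/
lemma sparse2 {nn P : ℕ → ℕ} (h0 : ∀ j, (j + 1) * P j ≤ nn j) (h1 : ∀ j, nn j ≤ P (j + 1))
    (h2 : ∀ j, (j + 1) * P (j + 1) ≤ (j + 2) * nn j) (h3 : ∀ j, j ≤ nn j) (L : ℕ) :
    Tendsto (fun N : ℕ => (((Finset.range N).filter
      (fun k => ∃ j, nn j ≤ k + L ∧ k < P (j + 1))).card : ℝ) / N) atTop (𝓝 0) := by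
  have hPn : ∀ j, P j ≤ nn j := fun j => le_trans (Nat.le_mul_of_pos_left _ (by omega)) (h0 j)
  have hPm : Monotone P := monotone_nat_of_le_succ fun j => (hPn j).trans (h1 j)
  have hnm : Monotone nn := monotone_nat_of_le_succ fun j => (h1 j).trans (hPn (j + 1))
  have key : ∀ J0 N : ℕ, nn J0 < N → (J0 + 1) * ((Finset.range N).filter
      (fun k => ∃ j, nn j ≤ k + L ∧ k < P (j + 1))).card ≤ 2 * (N + L) + (J0 + 1) * L := by
    intro J0 N hN
    have hex : ∃ J, N + L ≤ nn J := ⟨N + L, h3 _⟩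
    obtain ⟨J, hJ⟩ : ∃ J, J = Nat.find hex := ⟨_, rfl⟩
    have hJ1 : N + L ≤ nn J := by rw [hJ]; exact Nat.find_spec hex
    have hJ2 : J0 < J := by
      by_contra h
      have := hnm (not_lt.1 h)
      omega
    obtain ⟨J', rfl⟩ : ∃ J', J = J' + 1 := ⟨J - 1, by omega⟩
    have hJ3 : nn J' < N + L := by
      have := Nat.find_min hex (show J' < Nat.find hex by omega)
      omega
    have hsub : (Finset.range N).filter (fun k => ∃ j, nn j ≤ k + L ∧ k < P (j + 1)) ⊆
        Finset.range (P J') ∪ Finset.Ico (nn J' - L) (P (J' + 1)) := by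
      intro k hk
      simp only [Finset.mem_filter, Finset.mem_range] at hk
      obtain ⟨hk, j, hj1, hj2⟩ := hk
      simp only [Finset.mem_union, Finset.mem_range, Finset.mem_Ico]
      rcases lt_trichotomy j J' with h | h | h
      · left
        have := hPm (show j + 1 ≤ J' by omega)
        omega
      · right
        subst h
        omega
      · exfalso
        have := hnm (show J' + 1 ≤ j by omega)
        omega
    have hc := (Finset.card_le_card hsub).trans (Finset.card_union_le _ _)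
    rw [Finset.card_range, Nat.card_Ico] at hc
    set c := ((Finset.range N).filter (fun k => ∃ j, nn j ≤ k + L ∧ k < P (j + 1))).card
    have hc2 : c + nn J' ≤ P J' + P (J' + 1) + L := by have := h1 J'; omega
    have a0 := h0 J'
    have a2 := h2 J'
    have hc3 : (J' + 1) * c ≤ 2 * nn J' + (J' + 1) * L := by
      have h4 : (J' + 1) * (c + nn J') ≤ (J' + 1) * (P J' + P (J' + 1) + L) := Nat.mul_le_mul_left _ hc2
      nlinarith
    rcases Nat.lt_or_ge c L with h | h
    · have : (J0 + 1) * c ≤ (J0 + 1) * L := Nat.mul_le_mul_left _ h.le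
      omega
    · obtain ⟨e, he⟩ := Nat.exists_eq_add_of_le h
      rw [he] at hc3 ⊢
      have h5 : (J' + 1) * e ≤ 2 * nn J' := by nlinarith
      have h6 : (J0 + 1) * e ≤ (J' + 1) * e := Nat.mul_le_mul_right _ (by omega)
      nlinarith
  rw [Metric.tendsto_atTop]
  intro ε hε
  obtain ⟨J0, hJ0⟩ := exists_nat_gt (4 / ε)
  obtain ⟨N1, hN1⟩ := exists_nat_gt (8 * (L + 1) / ε)
  refine ⟨max (nn J0 + 1) N1, fun N hN => ?_⟩
  have hk := key J0 N (by omega)
  set c := ((Finset.range N).filter (fun k => ∃ j, nn j ≤ k + L ∧ k < P (j + 1))).card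
  rw [Real.dist_eq, sub_zero, abs_of_nonneg (by positivity)]
  have hNr : (1:ℝ) ≤ N := by
    have : 1 ≤ N := by omega
    exact_mod_cast this
  rw [div_lt_iff₀ (by linarith)]
  have hk' : ((J0 : ℝ) + 1) * c ≤ 2 * (N + L) + (J0 + 1) * L := by exact_mod_cast hk
  have hN2 : 8 * ((L : ℝ) + 1) < ε * N := by
    have : (N1 : ℝ) ≤ N := by
      have : N1 ≤ N := by omega
      exact_mod_cast this
    rw [div_lt_iff₀ hε] at hN1
    nlinarith
  have hJ2 : 4 < ε * (J0 + 1) := by
    rw [div_lt_iff₀ hε] at hJ0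
    nlinarith
  have hL0 : (0:ℝ) ≤ L := by positivity
  have hJ0r : (0:ℝ) ≤ J0 := by positivity
  have : ((J0 : ℝ) + 1) * c < (J0 + 1) * (ε * N) := by
    have e1 : 2 * (N : ℝ) ≤ (J0 + 1) * (ε * N) / 2 := by nlinarith
    have e2 : 2 * (L : ℝ) + (J0 + 1) * L < (J0 + 1) * (ε * N) / 2 := by nlinarith
    linarith
  exact lt_of_mul_lt_mul_left this (by positivity)

end Pool.Agent.R357.CF
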