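import Pool.Agent.R357.CF.Cantor3

/-!
Cantor series: the final theorem.
-/

set_option autoImplicit false

open Filter Set
open scoped Topology

namespace Pool.Agent.R357.CF

open Pool.Agent.W811.Stu Pool.Agent.W174.Stu

/-- the state of the construction -/
structure St where
  x : ℝ
  P : ℕ
  ρ : ℝ
  n : ℕ
  i : ℕ
  m : ℕ

/-- valid states -/
def St.ok (s : St) : Prop := Irrational s.x ∧ s.x ∈ Ioo (0:ℝ) 1 ∧ 0 < s.ρ

/-- one step of the construction -/
def St.step (q : ℕ → ℕ) (j : ℕ) (s t : St) : Prop :=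
  (j + 1) * s.P ≤ t.n ∧ j ≤ t.n ∧ t.n ≤ t.P ∧ (j + 1) * t.P ≤ (j + 2) * t.n ∧
  |t.x - s.x| ≤ 1 / Dq q t.n ∧ (∃ a : ℤ, (Dq q t.P : ℝ) * (t.x - s.x) = a) ∧
  4 / (Dq q t.n : ℝ) ≤ s.ρ ∧ t.ρ ≤ 1 / Dq q t.n ∧ j ≤ t.i ∧ t.i ≤ 6 * t.m ∧
  ∀ x : ℝ, |x - t.x| < t.ρ → ∀ l, t.i ≤ l → l < t.i + t.m → 1 / 2 < gauss^[l] (Int.fract x)

lemma step_exists {q : ℕ → ℕ} (hq : ∀ n, 2 ≤ q n)
    (H : ∀ j : ℕ, 1 ≤ j → ∃ K n0 : ℕ, ∀ n, n0 ≤ n → Dq q n ^ 2 < K * Dq q (n + n / j))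
    (j : ℕ) (s : St) (hs : s.ok) : ∃ t : St, t.ok ∧ s.step q j t := by
  obtain ⟨K, n0, hK⟩ := H (j + 1) (by omega)
  obtain ⟨hs1, hs2, hs3⟩ := hs
  obtain ⟨M, hM⟩ := exists_nat_gt (4 / s.ρ)
  obtain ⟨n, N, i, m, x1, δ, a, h1, h2, h3, h4, h5, h6, h7, h8, h9, h10, h11⟩ :=
    exE hq (show 1 ≤ j + 1 by omega) hK hs1 hs2 (max (max j M) ((j + 1) * s.P))
  have hD : (0:ℝ) < Dq q n := by exact_mod_cast Dq_pos hq n
  refine ⟨⟨x1, N, min δ (1 / Dq q n), n, i, m⟩, ⟨h7, h8, ?_⟩, ?_⟩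
  · exact lt_min h6 (by positivity)
  · refine ⟨by simp only; omega, by simp only; omega, h2, by simpa using h3, h9, ⟨a, h10⟩, ?_, min_le_right _ _,
      by simp only; omega, h5, ?_⟩
    · rw [div_lt_iff₀ hs3] at hM
      rw [div_le_iff₀ hD]
      have h12 : n < Dq q n := lt_of_lt_of_le Nat.lt_two_pow_self (Dq_ge hq n)
      have h13 : (M : ℝ) ≤ Dq q n := by
        have : M ≤ Dq q n := by omega
        exact_mod_cast this
      nlinarith
    · intro x hx l hl1 hl2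
      exact h11 x (lt_of_lt_of_le hx (min_le_left _ _)) l hl1 hl2

theorem case2 {q : ℕ → ℕ} (hq : ∀ n, 2 ≤ q n)
    (H : ∀ j : ℕ, 1 ≤ j → ∃ K n0 : ℕ, ∀ n, n0 ≤ n → Dq q n ^ 2 < K * Dq q (n + n / j)) : DN q ≠ NCF := by
  classical
  intro hE
  obtain ⟨α, hα1, hα2, hα3⟩ := exists_normal
  have hα4 : α ∈ NCF := by
    refine ⟨hα1, ?_⟩
    rw [gauss_eq, Int.fract_eq_self.2 ⟨hα2.1.le, hα2.2⟩]
    exact hα3
  rw [← hE] at hα4
  -- the sequence of states
  choose f hf using fun (j : ℕ) (s : {s : St // s.ok}) => step_exists hq H j s.1 s.2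
  let S : ℕ → {s : St // s.ok} := fun n => Nat.rec ⟨⟨α, 0, 1, 0, 0, 0⟩, ⟨hα1, hα2, one_pos⟩⟩
    (fun j s => ⟨f j s, (hf j s).1⟩) n
  have hS0 : (S 0).1 = ⟨α, 0, 1, 0, 0, 0⟩ := rfl
  have hSs : ∀ j, (S j).1.step q j (S (j + 1)).1 := fun j => (hf j (S j)).2
  obtain ⟨x, hx⟩ : ∃ x : ℕ → ℝ, x = fun j => (S j).1.x := ⟨_, rfl⟩
  obtain ⟨P, hP⟩ : ∃ P : ℕ → ℕ, P = fun j => (S j).1.P := ⟨_, rfl⟩
  obtain ⟨ρ, hρ⟩ : ∃ ρ : ℕ → ℝ, ρ = fun j => (S j).1.ρ := ⟨_, rfl⟩
  obtain ⟨nn, hnn⟩ : ∃ nn : ℕ → ℕ, nn = fun j => (S (j + 1)).1.n := ⟨_, rfl⟩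
  obtain ⟨ii, hii⟩ : ∃ ii : ℕ → ℕ, ii = fun j => (S (j + 1)).1.i := ⟨_, rfl⟩
  obtain ⟨mm, hmm⟩ : ∃ mm : ℕ → ℕ, mm = fun j => (S (j + 1)).1.m := ⟨_, rfl⟩
  have a1 : ∀ j, (j + 1) * P j ≤ nn j := by rw [hP, hnn]; exact fun j => (hSs j).1
  have a2 : ∀ j, j ≤ nn j := by rw [hnn]; exact fun j => (hSs j).2.1
  have a3 : ∀ j, nn j ≤ P (j + 1) := by rw [hP, hnn]; exact fun j => (hSs j).2.2.1
  have a4 : ∀ j, (j + 1) * P (j + 1) ≤ (j + 2) * nn j := by rw [hP, hnn]; exact fun j => (hSs j).2.2.2.1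
  have a5 : ∀ j, |x (j + 1) - x j| ≤ 1 / Dq q (nn j) := by
    rw [hx, hnn]; exact fun j => (hSs j).2.2.2.2.1
  have a6 : ∀ j, ∃ a : ℤ, (Dq q (P (j + 1)) : ℝ) * (x (j + 1) - x j) = a := by
    rw [hx, hP]; exact fun j => (hSs j).2.2.2.2.2.1
  have a7 : ∀ j, 4 / (Dq q (nn j) : ℝ) ≤ ρ j := by
    rw [hρ, hnn]; exact fun j => (hSs j).2.2.2.2.2.2.1
  have a8 : ∀ j, ρ (j + 1) ≤ 1 / Dq q (nn j) := by
    rw [hρ, hnn]; exact fun j => (hSs j).2.2.2.2.2.2.2.1
  have a9 : ∀ j, j ≤ ii j := by rw [hii]; exact fun j => (hSs j).2.2.2.2.2.2.2.2.1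
  have a10 : ∀ j, ii j ≤ 6 * mm j := by rw [hii, hmm]; exact fun j => (hSs j).2.2.2.2.2.2.2.2.2.1
  have a11 : ∀ j, ∀ y : ℝ, |y - x (j + 1)| < ρ (j + 1) → ∀ l, ii j ≤ l → l < ii j + mm j →
      1 / 2 < gauss^[l] (Int.fract y) := by
    rw [hii, hmm, hx, hρ]; exact fun j => (hSs j).2.2.2.2.2.2.2.2.2.2
  have hx0 : x 0 = α := by rw [hx]; rfl
  have hP0 : P 0 = 0 := by rw [hP]; rfl
  clear_value S
  clear hS0 hSs hx hP hρ hnn hii hmm hf
  clear S f
  obtain ⟨E, hE2⟩ : ∃ E : ℕ → ℝ, E = fun j => 1 / (Dq q (nn j) : ℝ) := ⟨_, rfl⟩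
  have hEj : ∀ j, E j = 1 / (Dq q (nn j) : ℝ) := by intro j; rw [hE2]
  have hE0 : ∀ j, 0 < E j := by
    intro j
    have : (0:ℝ) < Dq q (nn j) := by exact_mod_cast Dq_pos hq _
    rw [hEj]; positivity
  have b5 : ∀ j, |x (j + 1) - x j| ≤ E j := by intro j; rw [hEj]; exact a5 j
  have b7 : ∀ j, 4 * E j ≤ ρ j := by
    intro j; rw [hEj, mul_one_div]; exact a7 j
  have b8 : ∀ j, ρ (j + 1) ≤ E j := by intro j; rw [hEj]; exact a8 j
  have hEs : ∀ j, E (j + 1) ≤ E j / 2 := by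
    intro j
    have := b7 (j + 1)
    have := b8 j
    have := hE0 (j + 1)
    linarith
  have hE1 : ∀ j, E j ≤ E 0 * (1 / 2) ^ j := by
    intro j
    induction j with
    | zero => simp
    | succ j ih =>
      rw [pow_succ]
      linarith [hEs j]
  have hdist : ∀ j k, |x (j + k) - x j| ≤ 2 * E j - 2 * E (j + k) := by
    intro j k
    induction k with
    | zero => simp
    | succ k ih =>
      have h1 : |x (j + (k + 1)) - x j| ≤ |x (j + (k + 1)) - x (j + k)| + |x (j + k) - x j| :=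
        abs_sub_le _ _ _
      have h2 := b5 (j + k)
      have h3 := hEs (j + k)
      rw [add_assoc] at h2 h3
      linarith
  have hC : CauchySeq x := by
    apply cauchySeq_of_le_geometric (1 / 2) (E 0) (by norm_num)
    intro j
    rw [dist_comm, Real.dist_eq]
    exact (b5 j).trans (hE1 j)
  obtain ⟨y, hy⟩ := cauchySeq_tendsto_of_complete hC
  have hyj : ∀ j, |y - x j| ≤ 2 * E j := by
    intro j
    have h1 : Tendsto (fun k => |x (j + k) - x j|) atTop (𝓝 |y - x j|) := by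
      apply Tendsto.abs
      apply Tendsto.sub_const
      have := hy.comp (tendsto_add_atTop_nat j)
      refine this.congr fun k => ?_
      simp only [Function.comp]
      rw [add_comm]
    refine le_of_tendsto' h1 fun k => (hdist j k).trans ?_
    have := hE0 (j + k)
    linarith
  -- y has long runs
  have hrun : ∀ M, ∃ n g : ℕ, M ≤ n ∧ n ≤ 6 * g ∧ ∀ n', n ≤ n' → n' < n + g →
      ¬ gauss^[n'] (Int.fract y) < 1 / 2 := by
    intro M
    refine ⟨ii M, mm M, a9 M, a10 M, ?_⟩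
    intro n' h1 h2 h3
    have h4 : |y - x (M + 1)| < ρ (M + 1) := by
      have := hyj (M + 1)
      have := b7 (M + 1)
      have := hE0 (M + 1)
      linarith
    have := a11 M y h4 n' h1 h2
    linarith
  have hnot : y ∉ NCF := by
    rintro ⟨-, h⟩
    rw [gauss_eq] at h
    refine run_contra (fun n => gauss^[n] (Int.fract y) < 1 / 2) ?_ (h (1 / 2) (by norm_num) (by norm_num))
      (show 1 ≤ 6 by norm_num) hrun
    exact div_pos (Real.log_pos (by norm_num)) (Real.log_pos (by norm_num))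
  apply hnot
  rw [← hE]
  -- y is distribution normal
  have hint : ∀ j, ∃ a : ℤ, (Dq q (P j) : ℝ) * (x j - α) = a := by
    intro j
    induction j with
    | zero => exact ⟨0, by rw [hx0]; simp⟩
    | succ j ih =>
      obtain ⟨a, ha⟩ := ih
      obtain ⟨b, hb⟩ := a6 j
      have hPj : P j ≤ P (j + 1) := by
        have h1 := a1 j
        have h2 := a3 j
        have h3 : P j ≤ (j + 1) * P j := Nat.le_mul_of_pos_left _ (by omega)
        omega
      obtain ⟨c, hc⟩ := Dq_dvd q hPj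
      refine ⟨b + c * a, ?_⟩
      push_cast
      rw [← hb, ← ha, hc]
      push_cast
      ring
  have hPn : ∀ j, P j ≤ nn j := fun j => le_trans (Nat.le_mul_of_pos_left _ (by omega)) (a1 j)
  have hPm : Monotone P := monotone_nat_of_le_succ fun j => (hPn j).trans (a3 j)
  have hgood : ∀ L k : ℕ, (¬ ∃ j, nn j ≤ k + L ∧ k < P (j + 1)) →
      ∃ m : ℤ, |(Dq q k : ℝ) * y - Dq q k * α - m| ≤ 2 * (1 / 2) ^ L := by
    intro L k hk
    have hex : ∃ j, k < P (j + 1) := by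
      refine ⟨k + 1, ?_⟩
      have := a2 (k + 1)
      have := a3 (k + 1)
      omega
    obtain ⟨J, hJ⟩ : ∃ J, J = Nat.find hex := ⟨_, rfl⟩
    have hJ1 : k < P (J + 1) := by rw [hJ]; exact Nat.find_spec hex
    have hJ2 : P J ≤ k := by
      rcases Nat.eq_zero_or_pos J with h | h
      · rw [h, hP0]; exact Nat.zero_le _
      · have := Nat.find_min hex (show J - 1 < Nat.find hex by omega)
        rw [Nat.sub_add_cancel h] at this
        omega
    have hJ3 : k + L < nn J := by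
      by_contra hc
      exact hk ⟨J, by omega, hJ1⟩
    obtain ⟨a, ha⟩ := hint J
    obtain ⟨c, hc⟩ := Dq_dvd q hJ2
    refine ⟨c * a, ?_⟩
    have e : (Dq q k : ℝ) * y - Dq q k * α - ((c * a : ℤ) : ℝ) = Dq q k * (y - x J) := by
      push_cast
      rw [← ha, hc]
      push_cast
      ring
    rw [e, abs_mul, abs_of_nonneg (by positivity)]
    have h1 := hyj J
    rw [hEj] at h1
    have h2 := Dq_grow hq (show k ≤ nn J by omega)
    have h3 : 2 ^ L * Dq q k ≤ Dq q (nn J) := by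
      refine le_trans ?_ h2
      apply Nat.mul_le_mul_right
      exact Nat.pow_le_pow_right (by norm_num) (by omega)
    have h3' : (2:ℝ) ^ L * Dq q k ≤ Dq q (nn J) := by exact_mod_cast h3
    have hD : (0:ℝ) < Dq q (nn J) := by exact_mod_cast Dq_pos hq _
    calc (Dq q k : ℝ) * |y - x J| ≤ Dq q k * (2 * (1 / Dq q (nn J))) := by gcongr
      _ = 2 * (Dq q k / Dq q (nn J)) := by ring
      _ ≤ 2 * (1 / 2) ^ L := by
        gcongr
        rw [div_pow, one_pow, div_le_div_iff₀ hD (by positivity)]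
        linarith
  have hIco : ∀ z : ℝ, Int.fract z ∈ Ico (0:ℝ) 1 := fun z => ⟨Int.fract_nonneg z, Int.fract_lt_one z⟩
  have hα5 : ∀ t : ℝ, 0 ≤ t → t ≤ 1 →
      Tendsto (fun N : ℕ => (cnt (fun n => Int.fract ((Dq q n : ℝ) * α)) t N : ℝ) / N) atTop (𝓝 t) := by
    intro t ht0 ht1
    rcases ht0.eq_or_lt with rfl | ht0
    · refine tendsto_const_nhds.congr fun N => ?_
      have : cnt (fun n => Int.fract ((Dq q n : ℝ) * α)) 0 N = 0 := by
        unfold cnt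
        rw [Finset.card_eq_zero, Finset.filter_eq_empty_iff]
        intro n _
        rw [not_lt]
        exact Int.fract_nonneg _
      rw [this]; simp
    · have := hα4 0 t le_rfl ht0 ht1
      rw [sub_zero] at this
      refine this.congr fun N => ?_
      unfold cnt
      congr 3
      apply Finset.filter_congr
      intro n _
      constructor
      · rintro ⟨-, h⟩; exact h
      · intro h; exact ⟨Int.fract_nonneg _, h⟩
  have hy5 : ∀ t : ℝ, 0 ≤ t → t ≤ 1 →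
      Tendsto (fun N : ℕ => (cnt (fun n => Int.fract ((Dq q n : ℝ) * y)) t N : ℝ) / N) atTop (𝓝 t) := by
    apply transfer_circle (fun n => hIco _) (fun n => hIco _) hα5
    intro δ hδ
    obtain ⟨L, hL⟩ : ∃ L : ℕ, 2 * (1 / 2 : ℝ) ^ L < δ := by
      obtain ⟨L, hL⟩ := exists_pow_lt_of_lt_one (show 0 < δ / 2 by positivity) (show (1/2:ℝ) < 1 by norm_num)
      exact ⟨L, by linarith⟩
    refine squeeze_zero (fun N => by positivity) (fun N => ?_) (sparse2 a1 a3 a4 a2 L)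
    gcongr with k hk
    intro h2
    by_contra hc
    obtain ⟨m, hm⟩ := hgood L k hc
    have h3 := h2 (m - ⌊(Dq q k : ℝ) * y⌋ + ⌊(Dq q k : ℝ) * α⌋)
    have e : Int.fract ((Dq q k : ℝ) * y) - Int.fract ((Dq q k : ℝ) * α) -
        ((m - ⌊(Dq q k : ℝ) * y⌋ + ⌊(Dq q k : ℝ) * α⌋ : ℤ) : ℝ) = (Dq q k : ℝ) * y - Dq q k * α - m := by
      unfold Int.fract
      push_cast
      ring
    rw [e] at h3
    linarith
  intro a b ha hab hb
  have h1 := (hy5 b (by linarith) hb).sub (hy5 a ha (by linarith))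
  refine h1.congr fun N => ?_
  rw [← sub_div]
  congr 1
  have h2 : cnt (fun n => Int.fract ((Dq q n : ℝ) * y)) a N +
      ((Finset.range N).filter (fun n => a ≤ Int.fract ((Dq q n : ℝ) * y) ∧
        Int.fract ((Dq q n : ℝ) * y) < b)).card = cnt (fun n => Int.fract ((Dq q n : ℝ) * y)) b N := by
    unfold cnt
    rw [← Finset.card_union_of_disjoint]
    · congr 1
      ext n
      simp only [Finset.mem_union, Finset.mem_filter]
      constructor
      · rintro (⟨h, h'⟩ | ⟨h, h', h''⟩)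
        · exact ⟨h, by linarith⟩
        · exact ⟨h, h''⟩
      · rintro ⟨h, h'⟩
        by_cases h3 : Int.fract ((Dq q n : ℝ) * y) < a
        · exact Or.inl ⟨h, h3⟩
        · exact Or.inr ⟨h, not_lt.1 h3, h'⟩
    · rw [Finset.disjoint_left]
      intro n hn hn'
      rw [Finset.mem_filter] at hn hn'
      linarith [hn.2, hn'.2.1]
  rw [← h2, Nat.cast_add, add_sub_cancel_left]
  rfl

/-- For every basic sequence the set of distribution normal numbers differs from the set of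
continued-fraction normal numbers. -/
theorem final (q : ℕ → ℕ) (hq : ∀ n, 2 ≤ q n) : DN q ≠ NCF := by
  by_cases h : ∃ j : ℕ, 1 ≤ j ∧ ∀ K n0 : ℕ, ∃ n, n0 ≤ n ∧ K * Dq q (n + n / j) ≤ Dq q n ^ 2
  · obtain ⟨j, hj, H⟩ := h
    exact case1 hq hj H
  · push Not at h
    exact case2 hq h

end Pool.Agent.R357.CF
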