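import Pool.Agent.W174.Stu.Erg

/-!
Continued fractions with prescribed digits.
-/

set_option autoImplicit false

open Filter Set
open scoped Topology

namespace Pool.Agent.R357.CF

open Pool.Agent.W811.Stu Pool.Agent.W174.Stu

/-- the inverse branch of the Gauss map which belongs to a word -/
noncomputable def phi : List ℕ → ℝ → ℝ
  | [], z => z
  | d :: w, z => 1 / (d + phi w z)

/-- continuants: `phi w z = (P + P' z) / (Q + Q' z)` with `cq w = (P, P', Q, Q')` -/
def cq : List ℕ → ℕ × ℕ × ℕ × ℕ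
  | [] => (0, 1, 1, 0)
  | d :: w => ((cq w).2.2.1, (cq w).2.2.2, d * (cq w).2.2.1 + (cq w).1, d * (cq w).2.2.2 + (cq w).2.1)

/-- the denominator of a word -/
def Q (w : List ℕ) : ℕ := (cq w).2.2.1

/-- the second denominator of a word -/
def Q' (w : List ℕ) : ℕ := (cq w).2.2.2

/-- positive digits -/
def Good (w : List ℕ) : Prop := ∀ d ∈ w, 1 ≤ d

lemma Good.cons {d : ℕ} {w : List ℕ} (h : Good (d :: w)) : 1 ≤ d ∧ Good w :=
  ⟨h d (by simp), fun e he => h e (by simp [he])⟩

lemma Good.append {v w : List ℕ} (hv : Good v) (hw : Good w) : Good (v ++ w) := by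
  intro d hd
  rcases List.mem_append.1 hd with h | h
  · exact hv d h
  · exact hw d h

lemma good_nil : Good [] := fun d hd => by simp at hd

lemma good_single {d : ℕ} (h : 1 ≤ d) : Good [d] := fun e he => by
  simp at he; omega

lemma good_rep (m : ℕ) : Good (List.replicate m 1) := fun e he => by
  rw [List.mem_replicate] at he; omega

lemma phi_append (v w : List ℕ) (z : ℝ) : phi (v ++ w) z = phi v (phi w z) := by
  induction v with
  | nil => rfl
  | cons d v ih => simp only [List.cons_append, phi, ih]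

lemma phi_mem_Icc {w : List ℕ} (hw : Good w) {z : ℝ} (hz : z ∈ Icc (0:ℝ) 1) : phi w z ∈ Icc (0:ℝ) 1 := by
  induction w with
  | nil => exact hz
  | cons d w ih =>
    obtain ⟨h1, h2⟩ := hw.cons
    obtain ⟨a, b⟩ := ih h2
    have hd : (1:ℝ) ≤ d := by exact_mod_cast h1
    have : (0:ℝ) < d + phi w z := by linarith
    refine ⟨by simp only [phi]; positivity, ?_⟩
    simp only [phi]
    rw [div_le_one this]
    linarith

lemma phi_mem {w : List ℕ} (hw : Good w) {z : ℝ} (hz : z ∈ Ioo (0:ℝ) 1) : phi w z ∈ Ioo (0:ℝ) 1 := by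
  induction w with
  | nil => exact hz
  | cons d w ih =>
    obtain ⟨h1, h2⟩ := hw.cons
    obtain ⟨a, b⟩ := ih h2
    have hd : (1:ℝ) ≤ d := by exact_mod_cast h1
    have : (0:ℝ) < d + phi w z := by linarith
    refine ⟨by simp only [phi]; positivity, ?_⟩
    simp only [phi]
    rw [div_lt_one this]
    linarith

lemma gauss_one_div {d : ℕ} {z : ℝ} (hz : z ∈ Ioo (0:ℝ) 1) : gauss (1 / (d + z)) = z := by
  unfold gauss
  rw [one_div, inv_inv, Int.fract_natCast_add]
  exact Int.fract_eq_self.2 ⟨hz.1.le, hz.2⟩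

lemma gauss_phi {w : List ℕ} (hw : Good w) {z : ℝ} (hz : z ∈ Ioo (0:ℝ) 1) :
    gauss^[w.length] (phi w z) = z := by
  induction w with
  | nil => rfl
  | cons d w ih =>
    obtain ⟨h1, h2⟩ := hw.cons
    rw [List.length_cons, Function.iterate_succ_apply]
    simp only [phi]
    rw [gauss_one_div (phi_mem h2 hz), ih h2]

lemma cq_append (w : List ℕ) (d : ℕ) : cq (w ++ [d]) =
    (d * (cq w).1 + (cq w).2.1, (cq w).1, d * (cq w).2.2.1 + (cq w).2.2.2, (cq w).2.2.1) := by
  induction w with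
  | nil => simp [cq]
  | cons e w ih =>
    simp only [List.cons_append, cq, ih]
    refine Prod.ext rfl (Prod.ext rfl (Prod.ext ?_ rfl))
    ring

lemma Q_append (w : List ℕ) (d : ℕ) : Q (w ++ [d]) = d * Q w + Q' w := by
  unfold Q Q'; rw [cq_append]

lemma Q'_append (w : List ℕ) (d : ℕ) : Q' (w ++ [d]) = Q w := by
  unfold Q Q'; rw [cq_append]

lemma Q'_le {w : List ℕ} (hw : Good w) : Q' w ≤ Q w := by
  induction w using List.reverseRecOn with
  | nil => simp [Q, Q', cq]
  | append_singleton w d ih =>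
    have hd : 1 ≤ d := hw d (by simp)
    rw [Q_append, Q'_append]
    nlinarith [Nat.zero_le (Q' w)]

lemma Q_pos {w : List ℕ} (hw : Good w) : 1 ≤ Q w := by
  induction w using List.reverseRecOn with
  | nil => simp [Q, cq]
  | append_singleton w d ih =>
    have hd : 1 ≤ d := hw d (by simp)
    have := ih (fun e he => hw e (by simp [he]))
    rw [Q_append]
    nlinarith [Nat.zero_le (Q' w)]

lemma Q_le_append {w : List ℕ} {d : ℕ} (hd : 1 ≤ d) : Q w ≤ Q (w ++ [d]) := by
  rw [Q_append]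
  nlinarith [Nat.zero_le (Q' w), Nat.zero_le (Q w)]

lemma Q_rep {w : List ℕ} (hw : Good w) (m : ℕ) : Q (w ++ List.replicate m 1) ≤ 2 ^ m * Q w := by
  induction m with
  | zero => simp
  | succ m ih =>
    rw [List.replicate_succ', ← List.append_assoc, Q_append]
    have := Q'_le (hw.append (good_rep m))
    calc 1 * Q (w ++ List.replicate m 1) + Q' (w ++ List.replicate m 1)
        ≤ 2 * Q (w ++ List.replicate m 1) := by omega
      _ ≤ 2 * (2 ^ m * Q w) := by omega
      _ = 2 ^ (m + 1) * Q w := by ring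

/-- exponential growth of denominators -/
lemma Q_grow {w : List ℕ} (hw : Good w) : 2 ^ w.length ≤ 2 * (Q w) ^ 2 ∧
    2 ^ w.length ≤ 2 * (Q w) * (Q w + Q' w) ∧ 2 ^ (w.length / 2) ≤ Q w := by
  have key : ∀ n : ℕ, ∀ w : List ℕ, Good w → w.length = n → 2 ^ (n / 2) ≤ Q w := by
    intro n
    induction n using Nat.strong_induction_on with
    | _ n ih =>
      intro w hw hl
      rcases Nat.lt_or_ge n 2 with h | h
      · have : n / 2 = 0 := by omega
        rw [this, pow_zero]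
        exact Q_pos hw
      · induction w using List.reverseRecOn with
        | nil => simp at hl; omega
        | append_singleton w d _ =>
          induction w using List.reverseRecOn with
          | nil => simp at hl; omega
          | append_singleton w e _ =>
            have hd : 1 ≤ d := hw d (by simp)
            have he : 1 ≤ e := hw e (by simp)
            have hw' : Good w := fun f hf => hw f (by simp [hf])
            simp only [List.length_append, List.length_cons, List.length_nil] at hl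
            have h1 := ih (n - 2) (by omega) w hw' (by omega)
            rw [Q_append, Q_append, Q'_append]
            have h2 : n / 2 = (n - 2) / 2 + 1 := by omega
            rw [h2, pow_succ]
            nlinarith [Nat.zero_le (Q' w), Nat.zero_le (Q w), Nat.mul_le_mul he (le_refl (Q w)),
              Nat.mul_le_mul hd (le_refl (e * Q w + Q' w))]
  have h3 := key _ w hw rfl
  have h4 : 2 ^ w.length ≤ 2 * (Q w) ^ 2 := by
    calc 2 ^ w.length ≤ 2 ^ (1 + 2 * (w.length / 2)) := Nat.pow_le_pow_right (by norm_num) (by omega)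
      _ = 2 * (2 ^ (w.length / 2)) ^ 2 := by rw [pow_add, pow_one, mul_comm 2 (w.length / 2), pow_mul]
      _ ≤ 2 * (Q w) ^ 2 := by gcongr
  refine ⟨h4, h4.trans ?_, h3⟩
  nlinarith [Nat.zero_le (Q' w), Nat.zero_le (Q w)]

lemma phi_formula {w : List ℕ} (hw : Good w) {z : ℝ} (hz : 0 ≤ z) :
    0 < ((Q w : ℝ) + Q' w * z) ∧
    phi w z = (((cq w).1 : ℝ) + (cq w).2.1 * z) / ((Q w : ℝ) + Q' w * z) := by
  induction w with
  | nil => simp [phi, cq, Q, Q']
  | cons d w ih =>
    obtain ⟨h1, h2⟩ := hw.cons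
    obtain ⟨a, b⟩ := ih h2
    have hd : (1:ℝ) ≤ d := by exact_mod_cast h1
    have e1 : (Q (d :: w) : ℝ) + Q' (d :: w) * z =
        d * ((Q w : ℝ) + Q' w * z) + (((cq w).1 : ℝ) + (cq w).2.1 * z) := by
      simp only [Q, Q', cq]
      push_cast
      ring
    have h0 : 0 ≤ (((cq w).1 : ℝ) + (cq w).2.1 * z) := by positivity
    refine ⟨by rw [e1]; nlinarith, ?_⟩
    simp only [phi]
    rw [b, e1]
    have e2 : ((cq (d :: w)).1 : ℝ) + (cq (d :: w)).2.1 * z = (Q w : ℝ) + Q' w * z := by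
      simp only [Q, Q', cq]
    rw [e2]
    rw [add_div' _ _ _ a.ne', one_div_div]

lemma det {w : List ℕ} : ((cq w).2.1 : ℝ) * Q w - (cq w).1 * Q' w = (-1) ^ w.length := by
  induction w with
  | nil => simp [cq, Q, Q']
  | cons d w ih =>
    simp only [Q, Q', cq, List.length_cons, pow_succ] at ih ⊢
    push_cast
    rw [← ih]
    ring

/-- the difference of two values of an inverse branch -/
lemma phi_sub {w : List ℕ} (hw : Good w) {z z' : ℝ} (hz : 0 ≤ z) (hz' : 0 ≤ z') :
    phi w z - phi w z' = (-1) ^ w.length * (z - z') /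
      (((Q w : ℝ) + Q' w * z) * ((Q w : ℝ) + Q' w * z')) := by
  obtain ⟨a, b⟩ := phi_formula hw hz
  obtain ⟨c, d⟩ := phi_formula hw hz'
  rw [b, d, div_sub_div _ _ a.ne' c.ne']
  congr 1
  rw [← det (w := w)]
  ring

lemma phi_abs {w : List ℕ} (hw : Good w) {z z' : ℝ} (hz : z ∈ Icc (0:ℝ) 1) (hz' : z' ∈ Icc (0:ℝ) 1) :
    |z - z'| / (4 * (Q w : ℝ) ^ 2) ≤ |phi w z - phi w z'| ∧
      |phi w z - phi w z'| ≤ |z - z'| / (Q w : ℝ) ^ 2 := by
  rw [phi_sub hw hz.1 hz'.1, abs_div, abs_mul, abs_pow, abs_neg, abs_one, one_pow, one_mul]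
  have hQ : (1:ℝ) ≤ Q w := by exact_mod_cast Q_pos hw
  have hQ' : (Q' w : ℝ) ≤ Q w := by exact_mod_cast Q'_le hw
  have hQ0 : (0:ℝ) ≤ Q' w := by positivity
  have h1 : (Q w : ℝ) ≤ (Q w : ℝ) + Q' w * z := by nlinarith [hz.1]
  have h2 : (Q w : ℝ) ≤ (Q w : ℝ) + Q' w * z' := by nlinarith [hz'.1]
  have h3 : (Q w : ℝ) + Q' w * z ≤ 2 * Q w := by nlinarith [hz.2, hz.1]
  have h4 : (Q w : ℝ) + Q' w * z' ≤ 2 * Q w := by nlinarith [hz'.2, hz'.1]
  rw [abs_of_pos (show 0 < ((Q w : ℝ) + Q' w * z) * ((Q w : ℝ) + Q' w * z') by nlinarith)]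
  constructor
  · apply div_le_div_of_nonneg_left (abs_nonneg _) (by nlinarith) (by nlinarith)
  · apply div_le_div_of_nonneg_left (abs_nonneg _) (by nlinarith) (by nlinarith)

/-- prefixes of a sequence -/
def pre (s : ℕ → ℕ) (n : ℕ) : List ℕ := (List.range n).map s

/-- shifts of a sequence -/
def sh (s : ℕ → ℕ) (n : ℕ) : ℕ → ℕ := fun i => s (n + i)

lemma pre_length (s : ℕ → ℕ) (n : ℕ) : (pre s n).length = n := by simp [pre]

lemma pre_succ (s : ℕ → ℕ) (n : ℕ) : pre s (n + 1) = pre s n ++ [s n] := by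
  simp [pre, List.range_succ]

lemma pre_succ' (s : ℕ → ℕ) (n : ℕ) : pre s (n + 1) = s 0 :: pre (sh s 1) n := by
  unfold pre sh
  rw [List.range_succ_eq_map, List.map_cons, List.map_map]
  congr 1
  apply List.map_congr_left
  intro i _
  simp [add_comm]

lemma pre_good {s : ℕ → ℕ} (hs : ∀ n, 1 ≤ s n) (n : ℕ) : Good (pre s n) := by
  intro d hd
  simp only [pre, List.mem_map] at hd
  obtain ⟨i, _, rfl⟩ := hd
  exact hs i

lemma pre_congr {s s' : ℕ → ℕ} {n : ℕ} (h : ∀ i < n, s i = s' i) : pre s n = pre s' n := by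
  unfold pre
  apply List.map_congr_left
  intro i hi
  exact h i (List.mem_range.1 hi)

/-- the value of an infinite continued fraction -/
noncomputable def X (s : ℕ → ℕ) : ℝ := limUnder atTop (fun n => phi (pre s n) 0)

lemma Q_pre_sq {s : ℕ → ℕ} (hs : ∀ n, 1 ≤ s n) (n : ℕ) :
    1 / (Q (pre s n) : ℝ) ^ 2 ≤ 2 * (1 / 2 : ℝ) ^ n := by
  have h := (Q_grow (pre_good hs n)).1
  rw [pre_length] at h
  have h1 : (2:ℝ) ^ n ≤ 2 * (Q (pre s n) : ℝ) ^ 2 := by exact_mod_cast h
  have hQ : (1:ℝ) ≤ Q (pre s n) := by exact_mod_cast Q_pos (pre_good hs n)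
  rw [div_pow, one_pow, mul_one_div, div_le_div_iff₀ (by positivity) (by positivity)]
  linarith

lemma X_tendsto {s : ℕ → ℕ} (hs : ∀ n, 1 ≤ s n) :
    Tendsto (fun n => phi (pre s n) 0) atTop (𝓝 (X s)) := by
  have hC : CauchySeq (fun n => phi (pre s n) 0) := by
    apply cauchySeq_of_le_geometric (1 / 2) 2 (by norm_num)
    intro n
    rw [pre_succ, phi_append, dist_comm, Real.dist_eq]
    have h1 : phi [s n] 0 ∈ Icc (0:ℝ) 1 := phi_mem_Icc (good_single (hs n)) ⟨le_rfl, zero_le_one⟩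
    refine ((phi_abs (pre_good hs n) h1 ⟨le_rfl, zero_le_one⟩).2).trans ?_
    refine le_trans ?_ (Q_pre_sq hs n)
    gcongr
    rw [sub_zero, abs_of_nonneg h1.1]
    exact h1.2
  exact (cauchySeq_tendsto_of_complete hC).choose_spec |> fun h => by
    unfold X
    exact h.limUnder_eq ▸ h

lemma sh_good {s : ℕ → ℕ} (hs : ∀ n, 1 ≤ s n) (m : ℕ) : ∀ n, 1 ≤ sh s m n := fun _ => hs _

lemma X_nonneg {s : ℕ → ℕ} (hs : ∀ n, 1 ≤ s n) : X s ∈ Icc (0:ℝ) 1 := by
  apply isClosed_Icc.mem_of_tendsto (X_tendsto hs)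
  exact Eventually.of_forall fun n => phi_mem_Icc (pre_good hs n) ⟨le_rfl, zero_le_one⟩

lemma X_eq {s : ℕ → ℕ} (hs : ∀ n, 1 ≤ s n) : X s = 1 / (s 0 + X (sh s 1)) := by
  have h1 := (X_tendsto hs).comp (tendsto_add_atTop_nat 1)
  have h2 := X_tendsto (sh_good hs 1)
  have hs0 : (1:ℝ) ≤ s 0 := by exact_mod_cast hs 0
  have h3 : Tendsto (fun n => 1 / ((s 0 : ℝ) + phi (pre (sh s 1) n) 0)) atTop
      (𝓝 (1 / (s 0 + X (sh s 1)))) := by
    apply Tendsto.div tendsto_const_nhds (tendsto_const_nhds.add h2)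
    have := (X_nonneg (sh_good hs 1)).1
    positivity
  refine tendsto_nhds_unique h1 (h3.congr fun n => ?_)
  simp only [Function.comp]
  rw [pre_succ']
  rfl

lemma X_mem {s : ℕ → ℕ} (hs : ∀ n, 1 ≤ s n) : X s ∈ Ioo (0:ℝ) 1 := by
  have pos : ∀ {s : ℕ → ℕ}, (∀ n, 1 ≤ s n) → 0 < X s := by
    intro s hs
    rw [X_eq hs]
    have hs0 : (1:ℝ) ≤ s 0 := by exact_mod_cast hs 0
    have := (X_nonneg (sh_good hs 1)).1
    positivity
  refine ⟨pos hs, ?_⟩
  rw [X_eq hs]
  have hs0 : (1:ℝ) ≤ s 0 := by exact_mod_cast hs 0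
  have := pos (sh_good hs 1)
  rw [div_lt_one (by positivity)]
  linarith

lemma sh_sh (s : ℕ → ℕ) (m n : ℕ) : sh (sh s m) n = sh s (m + n) := by
  funext i; simp [sh, add_assoc]

lemma gauss_X {s : ℕ → ℕ} (hs : ∀ n, 1 ≤ s n) : gauss (X s) = X (sh s 1) := by
  rw [X_eq hs]
  exact gauss_one_div (X_mem (sh_good hs 1))

lemma gauss_iter_X {s : ℕ → ℕ} (hs : ∀ n, 1 ≤ s n) (n : ℕ) : gauss^[n] (X s) = X (sh s n) := by
  induction n with
  | zero =>
    have : sh s 0 = s := by funext i; simp [sh]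
    rw [this]; rfl
  | succ n ih => rw [Function.iterate_succ_apply', ih, gauss_X (sh_good hs n), sh_sh]

lemma X_pre {s : ℕ → ℕ} (hs : ∀ n, 1 ≤ s n) (n : ℕ) : X s = phi (pre s n) (X (sh s n)) := by
  induction n with
  | zero =>
    have : sh s 0 = s := by funext i; simp [sh]
    rw [this]; rfl
  | succ n ih =>
    rw [pre_succ, phi_append, ih]
    congr 1
    rw [X_eq (sh_good hs n), sh_sh]
    simp [phi, sh]

lemma close {w : List ℕ} (hw : Good w) {z z' : ℝ} (hz : z ∈ Icc (0:ℝ) 1) (hz' : z' ∈ Icc (0:ℝ) 1) :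
    |phi w z - phi w z'| ≤ 2 * (1 / 2 : ℝ) ^ w.length := by
  have h := (Q_grow hw).1
  have h1 : (2:ℝ) ^ w.length ≤ 2 * (Q w : ℝ) ^ 2 := by exact_mod_cast h
  have hQ : (1:ℝ) ≤ Q w := by exact_mod_cast Q_pos hw
  refine ((phi_abs hw hz hz').2).trans ?_
  have h3 : |z - z'| ≤ 1 := by rw [abs_le]; constructor <;> linarith [hz.1, hz.2, hz'.1, hz'.2]
  rw [div_pow, one_pow, mul_one_div, div_le_div_iff₀ (by positivity) (by positivity)]
  nlinarith [abs_nonneg (z - z')]

lemma X_close {s s' : ℕ → ℕ} (hs : ∀ n, 1 ≤ s n) (hs' : ∀ n, 1 ≤ s' n) {n : ℕ}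
    (h : ∀ i < n, s i = s' i) : |X s - X s'| ≤ 2 * (1 / 2 : ℝ) ^ n := by
  rw [X_pre hs n, X_pre hs' n, pre_congr h]
  have := close (pre_good hs' n) (Ioo_subset_Icc_self (X_mem (sh_good hs n)))
    (Ioo_subset_Icc_self (X_mem (sh_good hs' n)))
  rwa [pre_length] at this

/-- a rational number has a finite orbit -/
lemma rat_orbit : ∀ q : ℕ, ∀ p : ℕ, ∀ x : ℝ, x = (p : ℝ) / q → ∃ n, gauss^[n] x ∉ Ioo (0:ℝ) 1 := by
  intro q
  induction q using Nat.strong_induction_on with
  | _ q ih =>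
    intro p x hx
    by_cases h : x ∈ Ioo (0:ℝ) 1
    · have hq : 0 < q := by
        rcases Nat.eq_zero_or_pos q with h0 | h0
        · rw [h0] at hx; simp at hx; rw [hx] at h; exact absurd h.1 (lt_irrefl _)
        · exact h0
      have hq' : (0:ℝ) < q := by exact_mod_cast hq
      have hpq : p < q := by
        have := h.2
        rw [hx, div_lt_one hq'] at this
        exact_mod_cast this
      have hp : 0 < p := by
        rcases Nat.eq_zero_or_pos p with h0 | h0
        · rw [h0] at hx; simp at hx; rw [hx] at h; exact absurd h.1 (lt_irrefl _)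
        · exact h0
      have hp' : (0:ℝ) < p := by exact_mod_cast hp
      have e : gauss x = ((q % p : ℕ) : ℝ) / p := by
        unfold gauss
        rw [hx, inv_div]
        have h1 : (q : ℝ) = (q / p : ℕ) * p + (q % p : ℕ) := by
          exact_mod_cast (Nat.div_add_mod' q p).symm
        have h2 : (q : ℝ) / p = (q / p : ℕ) + ((q % p : ℕ) : ℝ) / p := by
          rw [div_eq_iff hp'.ne', add_mul, div_mul_cancel₀ _ hp'.ne']
          exact h1
        rw [h2, Int.fract_natCast_add]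
        apply Int.fract_eq_self.2
        refine ⟨by positivity, ?_⟩
        rw [div_lt_one hp']
        exact_mod_cast Nat.mod_lt q hp
      obtain ⟨n, hn⟩ := ih p hpq (q % p) _ e
      refine ⟨n + 1, ?_⟩
      rw [Function.iterate_succ_apply]
      exact hn
    · exact ⟨0, h⟩

lemma X_irr {s : ℕ → ℕ} (hs : ∀ n, 1 ≤ s n) : Irrational (X s) := by
  rintro ⟨r, hr⟩
  have h0 := X_mem hs
  have hr0 : 0 < r := by
    have := h0.1; rw [← hr] at this; exact_mod_cast this
  have h1 : X s = (r.num.toNat : ℝ) / (r.den : ℝ) := by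
    rw [← hr]
    have : (r.num.toNat : ℤ) = r.num := Int.toNat_of_nonneg (Rat.num_nonneg.2 hr0.le)
    have h2 : ((r.num.toNat : ℤ) : ℝ) = (r.num : ℝ) := by rw [this]
    have h3 : (r.num.toNat : ℝ) = (r.num : ℝ) := by rw [← h2]; exact (Int.cast_natCast _).symm
    rw [h3]
    exact Rat.cast_def r
  obtain ⟨n, hn⟩ := rat_orbit _ _ _ h1
  apply hn
  rw [gauss_iter_X hs]
  exact X_mem (sh_good hs n)

lemma dig_step {α : ℝ} (h : Irrational α) (h1 : α ∈ Ioo (0:ℝ) 1) (n : ℕ) :
    1 ≤ dig α n ∧ gauss^[n] α = 1 / (dig α n + gauss^[n + 1] α) := by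
  obtain ⟨a, b⟩ := inv_eq_add (iter_mem h h1 n).2
  refine ⟨a, ?_⟩
  rw [Function.iterate_succ_apply']
  exact b

/-- digits of an irrational number -/
lemma dig_props {α : ℝ} (h : Irrational α) (h1 : α ∈ Ioo (0:ℝ) 1) :
    (∀ n, 1 ≤ dig α n) ∧ ∀ n, α = phi (pre (dig α) n) (gauss^[n] α) := by
  have h3 := dig_step h h1
  refine ⟨fun n => (h3 n).1, ?_⟩
  intro n
  induction n with
  | zero => rfl
  | succ n ih =>
    rw [pre_succ, phi_append]
    have e : phi [dig α n] (gauss^[n + 1] α) = gauss^[n] α := by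
      rw [(h3 n).2]; rfl
    rw [e]
    exact ih

lemma X_dig {α : ℝ} (h : Irrational α) (h1 : α ∈ Ioo (0:ℝ) 1) : X (dig α) = α := by
  obtain ⟨a, b⟩ := dig_props h h1
  have hz : Tendsto (fun n : ℕ => 2 * (1 / 2 : ℝ) ^ n) atTop (𝓝 0) := by
    have := (tendsto_pow_atTop_nhds_zero_of_lt_one (r := (1/2:ℝ)) (by norm_num) (by norm_num)).const_mul 2
    simpa using this
  have h3 : ∀ n : ℕ, |X (dig α) - α| ≤ 2 * (1 / 2 : ℝ) ^ n := by
    intro n
    have := close (pre_good a n) (Ioo_subset_Icc_self (X_mem (sh_good a n)))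
      (Ioo_subset_Icc_self (iter_mem h h1 n).2)
    rw [pre_length, ← b n, ← X_pre a n] at this
    exact this
  have h4 : |X (dig α) - α| ≤ 0 := ge_of_tendsto' hz h3
  have h5 := abs_nonpos_iff.1 h4
  linarith

end Pool.Agent.R357.CF
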