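import Pool.Agent.R357.CF.Seq

/-!
Steering: a huge digit inserted after a word `w` makes `√2 (x + 1)` have a long run of ones.
-/

set_option autoImplicit false

open Filter Set
open scoped Topology

namespace Pool.Agent.R357.CF

open Pool.Agent.W811.Stu Pool.Agent.W174.Stu

lemma phi_contOn {w : List ℕ} (hw : Good w) : ContinuousOn (phi w) (Icc (0:ℝ) 1) := by
  induction w with
  | nil => exact continuousOn_id
  | cons d w ih =>
    obtain ⟨h1, h2⟩ := hw.cons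
    have hd : (1:ℝ) ≤ d := by exact_mod_cast h1
    have : phi (d :: w) = fun z => 1 / ((d:ℝ) + phi w z) := rfl
    rw [this]
    apply ContinuousOn.div continuousOn_const (continuousOn_const.add (ih h2))
    intro x hx
    have h3 := (phi_mem_Icc h2 hx).1
    have h4 : 0 < (d:ℝ) + phi w x := by linarith
    exact h4.ne'

lemma phi_sign {w : List ℕ} (hw : Good w) {z z' : ℝ} (hz : 0 ≤ z) (hz' : 0 ≤ z') (h : z' < z) :
    0 < (-1 : ℝ) ^ w.length * (phi w z - phi w z') := by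
  rw [phi_sub hw hz hz']
  obtain ⟨a, _⟩ := phi_formula hw hz
  obtain ⟨b, _⟩ := phi_formula hw hz'
  have e : (-1:ℝ) ^ w.length * (-1:ℝ) ^ w.length = 1 := by
    rw [← mul_pow]; norm_num
  rw [← mul_div_assoc, ← mul_assoc, e, one_mul]
  exact div_pos (by linarith) (mul_pos a b)

lemma surj {W : List ℕ} (hW : Good W) {y : ℝ}
    (h : |y - phi W (1 / 2)| < 1 / (8 * (Q W : ℝ) ^ 2)) : ∃ ζ ∈ Ioo (0:ℝ) 1, phi W ζ = y := by
  have hc := phi_contOn hW
  have a1 := (phi_abs hW (z := 1 / 2) (z' := 0) (by norm_num) (by norm_num)).1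
  have a2 := (phi_abs hW (z := 1) (z' := 1 / 2) (by norm_num) (by norm_num)).1
  have b1 := phi_sign hW (z := 1 / 2) (z' := 0) (by norm_num) le_rfl (by norm_num)
  have b2 := phi_sign hW (z := 1) (z' := 1 / 2) (by norm_num) (by norm_num) (by norm_num)
  have e1 : |(1 / 2 : ℝ) - 0| / (4 * (Q W : ℝ) ^ 2) = 1 / (8 * (Q W : ℝ) ^ 2) := by
    rw [sub_zero, abs_of_pos (by norm_num), div_div]; congr 1; ring
  have e2 : |(1 : ℝ) - 1 / 2| / (4 * (Q W : ℝ) ^ 2) = 1 / (8 * (Q W : ℝ) ^ 2) := by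
    rw [show (1:ℝ) - 1 / 2 = 1 / 2 by norm_num, abs_of_pos (by norm_num), div_div]; congr 1; ring
  rw [e1] at a1
  rw [e2] at a2
  obtain ⟨l1, l2⟩ := abs_lt.1 h
  have hy : y ∈ uIcc (phi W 0) (phi W 1) ∧ y ≠ phi W 0 ∧ y ≠ phi W 1 := by
    rcases neg_one_pow_eq_or ℝ W.length with e | e
    · rw [e, one_mul] at b1 b2
      rw [abs_of_pos b1] at a1
      rw [abs_of_pos b2] at a2
      have c1 : phi W 0 < y := by linarith
      have c2 : y < phi W 1 := by linarith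
      exact ⟨mem_uIcc.2 (Or.inl ⟨c1.le, c2.le⟩), c1.ne', c2.ne⟩
    · rw [e] at b1 b2
      rw [abs_of_neg (by linarith)] at a1 a2
      have c1 : y < phi W 0 := by linarith
      have c2 : phi W 1 < y := by linarith
      exact ⟨mem_uIcc.2 (Or.inr ⟨c2.le, c1.le⟩), c1.ne, c2.ne'⟩
  have h01 : uIcc (0:ℝ) 1 = Icc 0 1 := uIcc_of_le zero_le_one
  obtain ⟨ζ, hζ, e⟩ := intermediate_value_uIcc (a := (0:ℝ)) (b := 1) (by rw [h01]; exact hc) hy.1
  rw [h01] at hζ
  refine ⟨ζ, ⟨lt_of_le_of_ne hζ.1 ?_, lt_of_le_of_ne hζ.2 ?_⟩, e⟩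
  · rintro rfl; exact hy.2.1 e.symm
  · rintro rfl; exact hy.2.2 e.symm

/-- a number in the cylinder of `v 1^m` has a run of ones -/
lemma run {v : List ℕ} (hv : Good v) (m : ℕ) {ζ : ℝ} (hζ : ζ ∈ Ioo (0:ℝ) 1) (n : ℕ)
    (h1 : v.length ≤ n) (h2 : n < v.length + m) :
    1 / 2 < gauss^[n] (phi (v ++ List.replicate m 1) ζ) := by
  obtain ⟨j, rfl⟩ := Nat.exists_eq_add_of_le h1
  have hj : j < m := by omega
  obtain ⟨l, hl⟩ : ∃ l, m = j + (l + 1) := ⟨m - j - 1, by omega⟩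
  have e : v ++ List.replicate m 1 = (v ++ List.replicate j 1) ++ (1 :: List.replicate l 1) := by
    rw [hl, List.replicate_add, List.append_assoc, List.replicate_succ]
  have e2 : v.length + j = (v ++ List.replicate j 1).length := by simp
  have hg : Good (1 :: List.replicate l 1) := by
    have := good_rep (l + 1)
    rwa [List.replicate_succ] at this
  rw [e, phi_append, e2, gauss_phi (hv.append (good_rep j)) (phi_mem hg hζ)]
  have := phi_mem (good_rep l) hζ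
  simp only [phi]
  rw [div_lt_div_iff₀ (by norm_num) (by push_cast; linarith [this.1])]
  push_cast
  linarith [this.2]

lemma irr_aux {w : List ℕ} (hw : Good w) : Irrational (√2 * phi w 0 + √2) := by
  obtain ⟨_, e⟩ := phi_formula hw (le_refl (0:ℝ))
  have hQ : (0:ℝ) < Q w := by exact_mod_cast Q_pos hw
  have e2 : √2 * phi w 0 + √2 = √2 * (((cq w).1 / (Q w) + 1 : ℚ) : ℝ) := by
    rw [e]; push_cast; simp; ring
  rw [e2]
  apply irrational_sqrt_two.mul_ratCast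
  positivity

lemma steer {w : List ℕ} (hw : Good w) (M0 : ℕ) : ∃ k i : ℕ, 1 ≤ k ∧ M0 ≤ i ∧
    ∀ z ∈ Ioo (0:ℝ) 1, ∀ n, i + 1 ≤ n → n < i + 1 + i / 3 →
      1 / 2 < gauss^[n] (Int.fract (√2 * (phi w (1 / (k + z))) + √2)) := by
  set ρ := √2 * phi w 0 + √2 with hρ
  have hρi : Irrational ρ := irr_aux hw
  set θ := Int.fract ρ with hθ
  have hθi : Irrational θ := hρi.sub_intCast _
  have hθm : θ ∈ Ioo (0:ℝ) 1 :=
    ⟨lt_of_le_of_ne (Int.fract_nonneg _) (fun h => hθi.ne_zero h.symm), Int.fract_lt_one _⟩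
  obtain ⟨hd, hdf⟩ := dig_props hθi hθm
  have hst := dig_step hθi hθm
  have him := fun n => (iter_mem hθi hθm n).2
  set d := dig θ with hd_def
  obtain ⟨i, hi1, hi2, hi3⟩ : ∃ i : ℕ, 6 * (7 + Q w) ≤ i ∧ M0 ≤ i ∧ Odd (i + w.length) := by
    refine ⟨6 * (7 + Q w + M0) + (w.length + 1) % 2, by omega, by omega, ?_⟩
    rw [Nat.odd_iff]
    omega
  set m := i / 3 with hm
  set v := pre d i ++ [d i + 1] with hv_def
  have hgi : Good (pre d i) := pre_good hd i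
  have hv : Good v := hgi.append (good_single (by omega))
  have hvl : v.length = i + 1 := by simp [hv_def, pre_length]
  set W := v ++ List.replicate m 1 with hW_def
  have hW : Good W := hv.append (good_rep m)
  -- sizes
  have hbig : 89 * 2 ^ m * Q w < Q v := by
    have h1 := (Q_grow hv).2.2
    rw [hvl] at h1
    have h2 : 2 ^ (m + (7 + Q w)) ≤ 2 ^ ((i + 1) / 2) := Nat.pow_le_pow_right (by norm_num) (by omega)
    have h3 : Q w < 2 ^ Q w := Nat.lt_two_pow_self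
    have h4 : 2 ^ (m + (7 + Q w)) = 2 ^ m * 128 * 2 ^ Q w := by rw [pow_add, pow_add]; ring
    have h5 : 0 < 2 ^ m := by positivity
    calc 89 * 2 ^ m * Q w ≤ 2 ^ m * 128 * Q w := by nlinarith
      _ < 2 ^ m * 128 * 2 ^ Q w := by
        apply Nat.mul_lt_mul_of_pos_left h3
        positivity
      _ ≤ _ := by rw [← h4]; exact h2.trans h1
  have hQw1 : (1:ℝ) ≤ Q w := by exact_mod_cast Q_pos hw
  have hbigR : 89 * (2:ℝ) ^ m * Q w < Q v := by exact_mod_cast hbig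
  have hm1 : (1:ℝ) ≤ 2 ^ m := one_le_pow₀ (by norm_num)
  have hQv : 89 * (Q w : ℝ) < Q v := by nlinarith
  have hQvpos : (0:ℝ) < Q v := by linarith
  have hQ'w : (Q' w : ℝ) ≤ Q w := by exact_mod_cast Q'_le hw
  -- target
  have hg : phi (List.replicate m 1) (1 / 2) ∈ Ioo (0:ℝ) 1 := phi_mem (good_rep m) (by norm_num)
  set gg := phi (List.replicate m 1) (1 / 2) with hgg
  set zs := 1 / (((d i + 1 : ℕ) : ℝ) + gg) with hzs
  have hphiW : phi W (1 / 2) = phi (pre d i) zs := by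
    rw [hW_def, hv_def, phi_append, phi_append]; rfl
  have hdi : (1:ℝ) ≤ d i := by exact_mod_cast hd i
  obtain ⟨-, hzi⟩ := hst i
  have hz1 := him (i + 1)
  have hzi0 := him i
  set zi := gauss^[i] θ with hzi_def
  set zi1 := gauss^[i + 1] θ with hzi1_def
  have hzs_pos : 0 < zs := by rw [hzs]; have := hg.1; positivity
  have hzs_le : zs ≤ 1 := by
    rw [hzs, div_le_one (by have := hg.1; positivity)]
    push_cast; linarith [hg.1]
  have hden : 0 < (d i : ℝ) + zi1 := by linarith [hz1.1]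
  have hden2 : 0 < (d i : ℝ) + 1 + gg := by linarith [hg.1]
  have hdiff : zi - zs = (1 + gg - zi1) / (((d i : ℝ) + 1 + gg) * (d i + zi1)) := by
    rw [hzi, hzs]
    push_cast
    field_simp
    ring
  have hlt : zs < zi := by
    have : 0 < zi - zs := by
      rw [hdiff]; apply div_pos (by linarith [hg.1, hz1.2]) (by positivity)
    linarith
  have hdiff2 : zi - zs ≤ 2 / (((d i : ℝ) + 1) * d i) := by
    rw [hdiff]
    apply div_le_div₀ (by norm_num) (by linarith [hg.2, hz1.1]) (by positivity)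
    apply mul_le_mul (by linarith [hg.1]) (by linarith [hz1.1]) (by positivity) (by positivity)
  set ys := (⌊ρ⌋ : ℝ) + phi W (1 / 2) with hys
  have hρθ : ρ = (⌊ρ⌋ : ℝ) + phi (pre d i) zi := by
    rw [← hdf i, hθ]; exact (Int.floor_add_fract ρ).symm
  have hQi1 : (1:ℝ) ≤ Q (pre d i) := by exact_mod_cast Q_pos hgi
  have hyr : |ys - ρ| ≤ 9 / (Q v : ℝ) ^ 2 := by
    have h1 : ys - ρ = phi (pre d i) zs - phi (pre d i) zi := by
      rw [hys, hphiW]; linarith [hρθ]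
    rw [h1]
    refine ((phi_abs hgi ⟨hzs_pos.le, hzs_le⟩ (Ioo_subset_Icc_self hzi0)).2).trans ?_
    rw [abs_sub_comm, abs_of_pos (by linarith)]
    have h2 : (Q v : ℝ) ≤ (d i + 2) * Q (pre d i) := by
      have : Q v = (d i + 1) * Q (pre d i) + Q' (pre d i) := Q_append _ _
      rw [this]
      have h3 : (Q' (pre d i) : ℝ) ≤ Q (pre d i) := by exact_mod_cast Q'_le hgi
      push_cast
      linarith
    have h4 : (zi - zs) / (Q (pre d i) : ℝ) ^ 2 ≤ 2 / (((d i : ℝ) + 1) * d i) / (Q (pre d i) : ℝ) ^ 2 := by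
      gcongr
    refine h4.trans ?_
    rw [div_div, div_le_div_iff₀ (by positivity) (by positivity)]
    have h5 : (Q v : ℝ) ^ 2 ≤ ((d i + 2) * Q (pre d i)) ^ 2 := by gcongr
    have h6 : 2 * ((d i : ℝ) + 2) ^ 2 ≤ 9 * ((d i + 1) * d i) := by nlinarith
    calc 2 * (Q v : ℝ) ^ 2 ≤ 2 * ((d i + 2) * Q (pre d i)) ^ 2 := by linarith
      _ = (2 * ((d i : ℝ) + 2) ^ 2) * (Q (pre d i) : ℝ) ^ 2 := by ring
      _ ≤ (9 * ((d i + 1) * d i)) * (Q (pre d i) : ℝ) ^ 2 := by gcongr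
      _ = _ := by ring
  have hsgn : 0 < (-1 : ℝ) ^ w.length * (ys - ρ) := by
    have h1 := phi_sign hgi hzi0.1.le hzs_pos.le hlt
    rw [pre_length] at h1
    have h2 : ρ - ys = phi (pre d i) zi - phi (pre d i) zs := by
      rw [hys, hphiW]; linarith [hρθ]
    rw [← h2] at h1
    have h3 : (-1:ℝ) ^ i * (-1:ℝ) ^ w.length = -1 := by rw [← pow_add]; exact hi3.neg_one_pow
    rcases neg_one_pow_eq_or ℝ i with e | e <;> rcases neg_one_pow_eq_or ℝ w.length with f | f <;>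
      rw [e] at h1 <;> rw [e, f] at h3 <;> rw [f] <;> norm_num at h3 <;> linarith
  have hs2 : (0:ℝ) < √2 := by positivity
  have hs21 : (1:ℝ) ≤ √2 := by rw [Real.one_le_sqrt]; norm_num
  have hs22 : √2 ≤ 3 / 2 := by rw [Real.sqrt_le_left (by norm_num)]; norm_num
  set δ := |ys - ρ| / √2 with hδ
  have hne : ys - ρ ≠ 0 := by rintro e; rw [e, mul_zero] at hsgn; exact lt_irrefl _ hsgn
  have hδpos : 0 < δ := div_pos (abs_pos.2 hne) hs2
  have hδle : δ ≤ 9 / (Q v : ℝ) ^ 2 := by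
    rw [hδ]; exact (div_le_self (abs_nonneg _) hs21).trans hyr
  have hδs : ys = ρ + √2 * ((-1 : ℝ) ^ w.length * δ) := by
    have h1 : √2 * ((-1 : ℝ) ^ w.length * δ) = (-1 : ℝ) ^ w.length * |ys - ρ| := by
      rw [hδ]; field_simp
    rw [h1]
    rcases neg_one_pow_eq_or ℝ w.length with e | e
    · rw [e] at hsgn ⊢
      rw [abs_of_pos (by linarith)]; ring
    · rw [e] at hsgn ⊢
      rw [abs_of_neg (by linarith)]; ring
  have hδQ : δ * (Q w : ℝ) ^ 2 ≤ 1 / 4 := by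
    have h1 : δ * (Q w : ℝ) ^ 2 ≤ 9 / (Q v : ℝ) ^ 2 * (Q w : ℝ) ^ 2 := by gcongr
    refine h1.trans ?_
    rw [div_mul_eq_mul_div, div_le_div_iff₀ (by positivity) (by norm_num)]
    nlinarith
  have hδQ' : δ * Q w * Q' w ≤ 1 / 4 := by
    refine le_trans ?_ hδQ
    have : δ * Q w * Q' w ≤ δ * Q w * Q w := by gcongr
    calc _ ≤ _ := this
      _ = _ := by ring
  set τ := δ * (Q w : ℝ) ^ 2 / (1 - δ * Q w * Q' w) with hτ
  have hτpos : 0 < τ := div_pos (by positivity) (by linarith)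
  have hτ2 : τ ≤ 2 * (δ * (Q w : ℝ) ^ 2) := by
    rw [hτ, div_le_iff₀ (by linarith)]
    have : 0 < δ * (Q w : ℝ) ^ 2 := by positivity
    nlinarith
  have hτ3 : τ ≤ 1 / 2 := by linarith
  have hτ4 : τ ≤ 18 * (Q w : ℝ) ^ 2 / (Q v : ℝ) ^ 2 := by
    refine hτ2.trans ?_
    have h1 : δ * (Q w : ℝ) ^ 2 ≤ 9 / (Q v : ℝ) ^ 2 * (Q w : ℝ) ^ 2 := by gcongr
    calc 2 * (δ * (Q w : ℝ) ^ 2) ≤ 2 * (9 / (Q v : ℝ) ^ 2 * (Q w : ℝ) ^ 2) := by linarith
      _ = _ := by ring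
  have hτmem : τ ∈ Icc (0:ℝ) 1 := ⟨hτpos.le, by linarith⟩
  have hx : √2 * phi w τ + √2 = ys := by
    have h1 := phi_sub hw hτpos.le (le_refl (0:ℝ))
    have h2 : (-1 : ℝ) ^ w.length * (τ - 0) / (((Q w : ℝ) + Q' w * τ) * ((Q w : ℝ) + Q' w * 0)) =
        (-1 : ℝ) ^ w.length * δ := by
      have h3 : (1 - δ * Q w * Q' w) ≠ 0 := by
        intro h; linarith
      have h4 : τ * (1 - δ * Q w * Q' w) = δ * (Q w : ℝ) ^ 2 := by
        rw [hτ]; exact div_mul_cancel₀ _ h3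
      have h5 : 0 < ((Q w : ℝ) + Q' w * τ) * ((Q w : ℝ) + Q' w * 0) := by
        have : (0:ℝ) ≤ Q' w := by positivity
        rw [mul_zero, add_zero]
        positivity
      rw [div_eq_iff h5.ne']
      linear_combination (-1 : ℝ) ^ w.length * h4
    rw [h2] at h1
    rw [hδs, hρ]
    linear_combination √2 * h1
  -- the digit
  set T := 1 / τ with hT
  have hT2 : 2 ≤ T := by
    rw [hT, le_div_iff₀ hτpos]; linarith
  have hk1 := Nat.floor_le (show 0 ≤ T by linarith)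
  have hk2 := Nat.lt_floor_add_one T
  set k := ⌊T⌋₊ with hk
  have hk3 : 1 ≤ k := by
    rw [hk]; apply Nat.le_floor; push_cast; linarith
  have hk3' : (1:ℝ) ≤ k := by exact_mod_cast hk3
  refine ⟨k, i, hk3, hi2, ?_⟩
  intro z hz n hn1 hn2
  have hTτ : τ = 1 / T := by rw [hT, one_div_one_div]
  have hτ' : |1 / ((k : ℝ) + z) - τ| ≤ 2 * τ ^ 2 := by
    rw [hTτ, div_sub_div _ _ (by linarith [hz.1]) (by linarith), abs_div,
      abs_of_pos (show 0 < ((k:ℝ) + z) * T by apply mul_pos <;> linarith [hz.1])]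
    have h1 : |1 * T - (↑k + z) * 1| ≤ 1 := by
      rw [abs_le]; constructor <;> linarith [hz.1, hz.2]
    have h2 : T / 2 * T ≤ ((k:ℝ) + z) * T := by
      apply mul_le_mul_of_nonneg_right _ (by linarith)
      linarith [hz.1]
    have hTp : 0 < T := by linarith
    calc |1 * T - (↑k + z) * 1| / (((k:ℝ) + z) * T) ≤ 1 / (T / 2 * T) := by
          apply div_le_div₀ (by norm_num) h1 (by positivity) h2
      _ = 2 * (1 / T) ^ 2 := by field_simp
  have hmem' : 1 / ((k : ℝ) + z) ∈ Icc (0:ℝ) 1 := by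
    have : (1:ℝ) ≤ k + z := by linarith [hz.1]
    refine ⟨by positivity, ?_⟩
    rw [div_le_one (by linarith)]; exact this
  set y := √2 * phi w (1 / ((k : ℝ) + z)) + √2 with hy
  have hyy : |y - ys| ≤ 972 * (Q w : ℝ) ^ 2 / (Q v : ℝ) ^ 4 := by
    have h1 : y - ys = √2 * (phi w (1 / ((k : ℝ) + z)) - phi w τ) := by
      rw [← hx, hy]; ring
    rw [h1, abs_mul, abs_of_pos hs2]
    have h2 := (phi_abs hw hmem' hτmem).2
    have h3 : |phi w (1 / ((k : ℝ) + z)) - phi w τ| ≤ 2 * τ ^ 2 / (Q w : ℝ) ^ 2 := by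
      refine h2.trans ?_
      gcongr
    have h4 : 2 * τ ^ 2 / (Q w : ℝ) ^ 2 ≤ 2 * (18 * (Q w : ℝ) ^ 2 / (Q v : ℝ) ^ 2) ^ 2 / (Q w : ℝ) ^ 2 := by
      gcongr
    calc √2 * |phi w (1 / ((k : ℝ) + z)) - phi w τ|
        ≤ 3 / 2 * (2 * (18 * (Q w : ℝ) ^ 2 / (Q v : ℝ) ^ 2) ^ 2 / (Q w : ℝ) ^ 2) := by
          apply mul_le_mul hs22 (h3.trans h4) (abs_nonneg _) (by norm_num)
      _ = 972 * (Q w : ℝ) ^ 2 / (Q v : ℝ) ^ 4 := by
          field_simp
          ring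
  have hQW : (Q W : ℝ) ≤ 2 ^ m * Q v := by exact_mod_cast Q_rep hv m
  have hQWpos : (0:ℝ) < Q W := by exact_mod_cast Q_pos hW
  have hfin : |(y - ⌊ρ⌋) - phi W (1 / 2)| < 1 / (8 * (Q W : ℝ) ^ 2) := by
    have h1 : (y - ⌊ρ⌋) - phi W (1 / 2) = y - ys := by rw [hys]; ring
    rw [h1]
    refine hyy.trans_lt ?_
    have h2 : 1 / (8 * (2 ^ m * (Q v : ℝ)) ^ 2) ≤ 1 / (8 * (Q W : ℝ) ^ 2) := by
      gcongr
    refine lt_of_lt_of_le ?_ h2
    rw [div_lt_div_iff₀ (by positivity) (by positivity)]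
    have h3 : (89 * (2:ℝ) ^ m * Q w) ^ 2 < (Q v : ℝ) ^ 2 := by
      apply pow_lt_pow_left₀ hbigR (by positivity) (by norm_num)
    have h4 : 0 < (Q v : ℝ) ^ 2 := by positivity
    calc 972 * (Q w : ℝ) ^ 2 * (8 * (2 ^ m * (Q v : ℝ)) ^ 2)
        = 7776 * ((2:ℝ) ^ m * Q w) ^ 2 * (Q v : ℝ) ^ 2 := by ring
      _ ≤ (89 * (2:ℝ) ^ m * Q w) ^ 2 * (Q v : ℝ) ^ 2 := by
          apply mul_le_mul_of_nonneg_right _ h4.le
          nlinarith [sq_nonneg ((2:ℝ) ^ m * Q w)]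
      _ < (Q v : ℝ) ^ 2 * (Q v : ℝ) ^ 2 := by
          apply mul_lt_mul_of_pos_right h3 h4
      _ = 1 * (Q v : ℝ) ^ 4 := by ring
  obtain ⟨ζ, hζ, e⟩ := surj hW hfin
  have hfr : Int.fract y = phi W ζ := by
    have h1 : y = (⌊ρ⌋ : ℝ) + phi W ζ := by rw [e]; ring
    rw [h1, Int.fract_intCast_add]
    have := phi_mem hW hζ
    exact Int.fract_eq_self.2 ⟨this.1.le, this.2⟩
  rw [hfr]
  exact run hv m hζ n (by omega) (by omega)

end Pool.Agent.R357.CF
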